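import Mathlib

/-! Statements of the elementary pieces of the bound `K_b ≤ C log b` (MP_eac634_nt). -/

set_option autoImplicit false

namespace Pool.Agent.R482.KB
open Finset

/-- S1: an integer `t ≤ K b` is a sum of at most `2 K + C log b` digits coprime to `b`. -/
def DigitSums : Prop := ∃ C : ℝ, 0 < C ∧ ∀ b : ℕ, 4 ≤ b → ∀ K t : ℕ, t ≤ K * b →
  ∃ l : List ℕ, (l.length : ℝ) ≤ 2 * K + C * Real.log b ∧
    (∀ a ∈ l, 1 ≤ a ∧ a < b ∧ Nat.Coprime a b) ∧ l.sum = t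

/-- S2: for large `L` there is a prime with `L + 1` digits in base `b` and with the last two digits
`0, a`. -/
def PrimesWithDigits : Prop := ∀ b : ℕ, 2 ≤ b → ∀ a : ℕ, a < b → Nat.Coprime a b → ∃ L0 : ℕ,
  ∀ L : ℕ, L0 ≤ L → ∃ p : ℕ, p.Prime ∧ b ^ L ≤ p ∧ p < b ^ (L + 1) ∧ p % b ^ 2 = a

/-- S3: a dense subset of `[0, N)` has a point from which on all the initial intervals are dense, and
then by Schnirelmann's theorem the sums of a bounded number of the shifted elements cover an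
interval. -/
def Covering : Prop := ∀ (S : Finset ℕ) (N X h : ℕ) (δ : ℝ), 1 ≤ X → 0 < δ → δ ≤ 1 → 5 ≤ δ * h →
  N = 2 * X → (∀ x ∈ S, x < N) → δ * X ≤ S.card →
  ∃ M : ℕ, M < N ∧ ∀ n : ℕ, n ≤ 2 * X → ∃ l : List ℕ, l.length = 2 * h ∧
    (∀ y ∈ l, M + y ∈ S ∨ (1 ≤ y ∧ M + (y - 1) ∈ S)) ∧ l.sum = n

/-- S4: a lower bound for the totient. -/
def TotientBound : Prop := ∃ C : ℝ, 0 < C ∧ ∀ b : ℕ, 2 ≤ b →
  (((b * (b ^ 2 - 1) : ℕ) : ℝ) / (Nat.totient (b * (b ^ 2 - 1)) : ℝ)) ^ 4 ≤ C * Real.log b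

end Pool.Agent.R482.KB
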