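import Pool.Agent.R482.KB.Dense
import Pool.Agent.R482.KB.Stm
import Pool.Agent.R456.RP.Basis

/-! The assembly. -/

set_option autoImplicit false

namespace Pool.Agent.R482.KB
open Finset
open Pool.Agent.R456.RP
open scoped Pointwise

/-- every sufficiently large integer is a sum of at most `K` reversed primes -/
def Cov (b K : ℕ) : Prop := ∃ N₀ : ℕ, ∀ N : ℕ, N₀ ≤ N →
  ∃ l : List ℕ, l.length ≤ K ∧ (∀ r ∈ l, IsRev b r) ∧ l.sum = N

lemma isRev_two (b : ℕ) (hb : 4 ≤ b) : IsRev b 2 := by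
  refine ⟨2, Nat.prime_two, ?_⟩
  rw [Nat.digits_of_lt b 2 (by norm_num) (by omega)]
  simp

lemma isRev_three (b : ℕ) (hb : 4 ≤ b) : IsRev b 3 := by
  refine ⟨3, Nat.prime_three, ?_⟩
  rw [Nat.digits_of_lt b 3 (by norm_num) (by omega)]
  simp

open Classical in
/-- collecting the summands -/
lemma collect3 (b L M : ℕ) (hb : 4 ≤ b) (hL : 1 ≤ L) (l : List ℕ)
    (hl : ∀ y ∈ l, M + y ∈ (Pr b L).image (rev b L) + (Pr b L).image (rev b L) ∨
      (1 ≤ y ∧ M + (y - 1) ∈ (Pr b L).image (rev b L) + (Pr b L).image (rev b L))) :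
    ∃ l' : List ℕ, l'.length = 3 * l.length ∧ (∀ r ∈ l', IsRev b r) ∧
      l'.sum = l.length * (M + 2) + l.sum := by
  induction l with
  | nil => exact ⟨[], by simp, by simp, by simp⟩
  | cons y l ih =>
    obtain ⟨l', h1, h2, h3⟩ := ih (fun z hz => hl z (List.mem_cons_of_mem _ hz))
    have key : ∃ r s v, IsRev b r ∧ IsRev b s ∧ IsRev b v ∧ r + s + v = M + 2 + y := by
      rcases hl y List.mem_cons_self with h | ⟨hy, h⟩
      · rw [mem_add] at h
        obtain ⟨r, hr, s, hs, hrs⟩ := h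
        rw [mem_image] at hr hs
        obtain ⟨p, hp, rfl⟩ := hr
        obtain ⟨p', hp', rfl⟩ := hs
        exact ⟨_, _, 2, isRev_of_mem b L p (by omega) hL hp, isRev_of_mem b L p' (by omega) hL hp',
          isRev_two b hb, by omega⟩
      · rw [mem_add] at h
        obtain ⟨r, hr, s, hs, hrs⟩ := h
        rw [mem_image] at hr hs
        obtain ⟨p, hp, rfl⟩ := hr
        obtain ⟨p', hp', rfl⟩ := hs
        exact ⟨_, _, 3, isRev_of_mem b L p (by omega) hL hp, isRev_of_mem b L p' (by omega) hL hp',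
          isRev_three b hb, by omega⟩
    obtain ⟨r, s, v, hr, hs, hv, hsum⟩ := key
    refine ⟨r :: s :: v :: l', ?_, ?_, ?_⟩
    · simp only [List.length_cons]; omega
    · intro z hz
      simp only [List.mem_cons] at hz
      rcases hz with rfl | rfl | rfl | hz
      · exact hr
      · exact hs
      · exact hv
      · exact h2 z hz
    · simp only [List.sum_cons, List.length_cons]
      rw [h3]
      have : (l.length + 1) * (M + 2) = l.length * (M + 2) + (M + 2) := by ring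
      rw [this]
      omega

/-- a reversed prime near `a b ^ L` -/
lemma near (hP : PrimesWithDigits) (b : ℕ) (hb : 2 ≤ b) (a : ℕ) (hab : a < b)
    (hc : Nat.Coprime a b) : ∃ L0 : ℕ, 1 ≤ L0 ∧ ∀ L : ℕ, L0 ≤ L →
    ∃ x : ℕ, IsRev b x ∧ a * b ^ L ≤ x ∧ x ≤ a * b ^ L + b ^ (L - 1) := by
  obtain ⟨L0, h⟩ := hP b hb a hab hc
  refine ⟨L0 + 2, by omega, ?_⟩
  intro L hL
  obtain ⟨p, hp, h1, h2, h3⟩ := h L (by omega)
  have hb0 : 0 < b := by omega
  have hmem : p ∈ Pr b (L + 1) := by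
    unfold Pr
    rw [mem_filter, mem_Ico]
    exact ⟨⟨by simpa using h1, h2⟩, hp⟩
  have hpb : p % b = a := by
    have h4 : p % b ^ 2 % b = p % b := Nat.mod_mod_of_dvd p (dvd_pow_self b (by norm_num))
    rw [h3, Nat.mod_eq_of_lt hab] at h4
    exact h4.symm
  have hpb2 : p / b % b = 0 := by
    have h4 : p % (b * b) / b = p / b % b := Nat.mod_mul_right_div_self p b b
    rw [← sq, h3, Nat.div_eq_of_lt hab] at h4
    exact h4.symm
  obtain ⟨k, rfl⟩ : ∃ k, L = k + 1 := ⟨L - 1, by omega⟩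
  have e1 : rev b (k + 1 + 1) p = a * b ^ (k + 1) + rev b (k + 1) (p / b) := by
    have h4 := rev_low b (k + 1) hb0 (p / b) (p % b) (Nat.mod_lt _ hb0)
    rw [Nat.mul_comm (p / b) b, Nat.div_add_mod] at h4
    rw [h4, hpb]
  have e2 : rev b (k + 1) (p / b) = 0 * b ^ k + rev b k (p / b / b) := by
    have h4 := rev_low b k hb0 (p / b / b) (p / b % b) (Nat.mod_lt _ hb0)
    rw [Nat.mul_comm (p / b / b) b, Nat.div_add_mod] at h4
    rw [h4, hpb2]
  have e3 : rev b k (p / b / b) < b ^ k := by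
    apply rev_lt b k hb0
    rw [Nat.div_div_eq_div_mul]
    apply Nat.div_lt_of_lt_mul
    calc p < b ^ (k + 1 + 1) := h2
      _ = b * b * b ^ k := by ring
  refine ⟨rev b (k + 1 + 1) p, isRev_of_mem b (k + 1 + 1) p hb (by omega) hmem, ?_, ?_⟩
  · rw [e1]; omega
  · rw [e1, e2, zero_mul, zero_add, Nat.add_sub_cancel]
    omega

/-- uniformly in the digit -/
lemma near_all (hP : PrimesWithDigits) (b : ℕ) (hb : 2 ≤ b) : ∃ L0 : ℕ, 1 ≤ L0 ∧ ∀ L : ℕ, L0 ≤ L →
    ∀ a : ℕ, a < b → Nat.Coprime a b →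
    ∃ x : ℕ, IsRev b x ∧ a * b ^ L ≤ x ∧ x ≤ a * b ^ L + b ^ (L - 1) := by
  have h : ∀ a : ℕ, ∃ L0 : ℕ, 1 ≤ L0 ∧ ∀ L : ℕ, L0 ≤ L → a < b → Nat.Coprime a b →
      ∃ x : ℕ, IsRev b x ∧ a * b ^ L ≤ x ∧ x ≤ a * b ^ L + b ^ (L - 1) := by
    intro a
    by_cases hab : a < b ∧ Nat.Coprime a b
    · obtain ⟨L0, h1, h2⟩ := near hP b hb a hab.1 hab.2
      exact ⟨L0, h1, fun L hL _ _ => h2 L hL⟩
    · exact ⟨1, le_rfl, fun L _ h1 h2 => absurd ⟨h1, h2⟩ hab⟩
  choose f hf1 hf2 using h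
  refine ⟨∑ a ∈ range b, f a, ?_, ?_⟩
  · calc 1 ≤ f 0 := hf1 0
      _ ≤ _ := single_le_sum (f := f) (fun _ _ => Nat.zero_le _) (mem_range.2 (by omega))
  · intro L hL a hab hc
    apply hf2 a L _ hab hc
    exact (single_le_sum (f := f) (fun _ _ => Nat.zero_le _) (mem_range.2 hab)).trans hL

/-- the digits give reversed primes -/
lemma digits_rev (b L : ℕ) (hx : ∀ a : ℕ, a < b → Nat.Coprime a b →
    ∃ x : ℕ, IsRev b x ∧ a * b ^ L ≤ x ∧ x ≤ a * b ^ L + b ^ (L - 1)) (l : List ℕ)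
    (hl : ∀ a ∈ l, 1 ≤ a ∧ a < b ∧ Nat.Coprime a b) :
    ∃ l' : List ℕ, l'.length = l.length ∧ (∀ r ∈ l', IsRev b r) ∧ l.sum * b ^ L ≤ l'.sum ∧
      l'.sum ≤ l.sum * b ^ L + l.length * b ^ (L - 1) := by
  induction l with
  | nil => exact ⟨[], by simp, by simp, by simp, by simp⟩
  | cons a l ih =>
    obtain ⟨l', h1, h2, h3, h4⟩ := ih (fun z hz => hl z (List.mem_cons_of_mem _ hz))
    obtain ⟨_, h5, h6⟩ := hl a List.mem_cons_self
    obtain ⟨x, hx1, hx2, hx3⟩ := hx a h5 h6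
    refine ⟨x :: l', ?_, ?_, ?_, ?_⟩
    · simp only [List.length_cons]; omega
    · intro z hz
      rw [List.mem_cons] at hz
      rcases hz with rfl | hz
      · exact hx1
      · exact h2 z hz
    · rw [List.sum_cons, List.sum_cons, add_mul]; omega
    · rw [List.sum_cons, List.sum_cons, List.length_cons, add_mul, add_mul]; omega

/-- The bound for one base. -/
theorem one_base (hP : PrimesWithDigits) (hCov : Covering) (b : ℕ) (hb : 8 ≤ b)
    (hrho : (rho b / b) ^ 8 ≤ b) (h : ℕ) (hh : 5 * (66 * Fi b) ^ 4 ≤ h) (m : ℕ)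
    (hm : ∀ t : ℕ, t ≤ (6 * h + 1) * b → ∃ l : List ℕ, l.length ≤ m ∧
      (∀ a ∈ l, 1 ≤ a ∧ a < b ∧ Nat.Coprime a b) ∧ l.sum = t) (hmb : m ≤ b) :
    Cov b (6 * h + m) := by
  classical
  have hb2 : 2 ≤ b := by omega
  have hb0 : 0 < b := by omega
  have hFi1 := one_le_Fi b hb2
  set δ : ℝ := 1 / (66 * Fi b) ^ 4 with hδ
  have hpos : 0 < (66 * Fi b) ^ 4 := by positivity
  have hone : 1 ≤ (66 * Fi b) ^ 4 := one_le_pow₀ (by linarith)
  have hδ0 : 0 < δ := by positivity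
  have hδ1 : δ ≤ 1 := by
    rw [hδ, div_le_one hpos]
    exact hone
  have hδh : 5 ≤ δ * h := by
    rw [hδ, one_div, inv_mul_eq_div, le_div_iff₀ hpos]
    exact hh
  obtain ⟨L0, hL0⟩ := dense b hb hrho
  obtain ⟨L1, hL11, hL1⟩ := near_all hP b hb2
  set L2 := max L0 L1 with hL2
  refine ⟨(6 * h + 1) * b ^ L2, ?_⟩
  intro N hN
  set L := Nat.log b (N / (6 * h + 1)) with hL
  have hNdiv : b ^ L2 ≤ N / (6 * h + 1) := by
    rw [Nat.le_div_iff_mul_le (by omega)]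
    calc b ^ L2 * (6 * h + 1) = (6 * h + 1) * b ^ L2 := by ring
      _ ≤ N := hN
  have hne : N / (6 * h + 1) ≠ 0 := by
    have : 0 < b ^ L2 := by positivity
    omega
  have hLL2 : L2 ≤ L := Nat.le_log_of_pow_le (by omega) hNdiv
  have hLL0 : L0 ≤ L := (le_max_left _ _).trans hLL2
  have hLL1 : L1 ≤ L := (le_max_right _ _).trans hLL2
  have hpow1 : b ^ L ≤ N / (6 * h + 1) := Nat.pow_log_le_self b hne
  have hpow2 : N / (6 * h + 1) < b ^ (L + 1) := Nat.lt_pow_succ_log_self (by omega) _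
  set X := b ^ L with hX
  have hX0 : 0 < X := by positivity
  have hNX : (6 * h + 1) * X ≤ N := by
    rw [Nat.le_div_iff_mul_le (by omega)] at hpow1
    calc (6 * h + 1) * X = X * (6 * h + 1) := by ring
      _ ≤ N := hpow1
  have hNX2 : N < (6 * h + 1) * b * X := by
    rw [Nat.div_lt_iff_lt_mul (by omega)] at hpow2
    calc N < b ^ (L + 1) * (6 * h + 1) := hpow2
      _ = (6 * h + 1) * b * X := by rw [hX]; ring
  -- the covering
  set S := (Pr b L).image (rev b L) + (Pr b L).image (rev b L) with hS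
  have hSlt : ∀ x ∈ S, x < 2 * X := by
    intro x hx
    rw [hS, mem_add] at hx
    obtain ⟨r, hr, s, hs, rfl⟩ := hx
    rw [mem_image] at hr hs
    obtain ⟨p, hp, rfl⟩ := hr
    obtain ⟨p', hp', rfl⟩ := hs
    unfold Pr at hp hp'
    rw [mem_filter, mem_Ico] at hp hp'
    have h1 := rev_lt b L hb0 p hp.1.2
    have h2 := rev_lt b L hb0 p' hp'.1.2
    omega
  have hScard : δ * (X : ℕ) ≤ S.card := by
    have := hL0 L hLL0
    rw [hX]
    push_cast
    exact this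
  obtain ⟨M, hM, hcov⟩ := hCov S (2 * X) X h δ hX0 hδ0 hδ1 hδh rfl hSlt hScard
  -- the digits
  set W := 2 * h * (M + 2) with hW
  have hWle : W ≤ 6 * h * X := by
    rw [hW]
    have h1 : M + 2 ≤ 3 * X := by omega
    calc 2 * h * (M + 2) ≤ 2 * h * (3 * X) := Nat.mul_le_mul_left _ h1
      _ = 6 * h * X := by ring
  have h1X : (6 * h + 1) * X = 6 * h * X + X := by ring
  obtain ⟨N', hN'⟩ : ∃ N', N = W + N' := ⟨N - W, by omega⟩
  have hN'X : X ≤ N' := by omega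
  have hdiv1 : 1 ≤ N' / X := (Nat.one_le_div_iff hX0).2 hN'X
  obtain ⟨t, ht⟩ : ∃ t, N' / X = t + 1 := ⟨N' / X - 1, by omega⟩
  have ht1 : (t + 1) * X ≤ N' := by rw [← ht]; exact Nat.div_mul_le_self _ _
  have ht2 : N' < (t + 2) * X := by
    have := Nat.lt_div_mul_add (a := N') hX0
    rw [ht] at this
    calc N' < (t + 1) * X + X := this
      _ = (t + 2) * X := by ring
  have htle : t ≤ (6 * h + 1) * b := by
    by_contra hcon
    push Not at hcon
    have h2 : (6 * h + 1) * b * X ≤ (t + 1) * X := Nat.mul_le_mul_right _ (by omega)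
    omega
  obtain ⟨la, hla1, hla2, hla3⟩ := hm t htle
  obtain ⟨lx, hlx1, hlx2, hlx3, hlx4⟩ := digits_rev b L (hL1 L hLL1) la hla2
  rw [hla3] at hlx3 hlx4
  have herr : la.length * b ^ (L - 1) ≤ X := by
    calc la.length * b ^ (L - 1) ≤ b * b ^ (L - 1) := Nat.mul_le_mul_right _ (by omega)
      _ = X := by
          rw [hX, ← pow_succ']
          congr 1
          omega
  have ha : (t + 1) * X = t * X + X := by ring
  have hb' : (t + 2) * X = t * X + 2 * X := by ring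
  have hxX : t * b ^ L = t * X := rfl
  rw [hxX] at hlx3 hlx4
  obtain ⟨n, hn⟩ : ∃ n, N' = lx.sum + n := ⟨N' - lx.sum, by omega⟩
  have hn2 : n ≤ 2 * X := by omega
  obtain ⟨ly, hly1, hly2, hly3⟩ := hcov n hn2
  obtain ⟨lz, hlz1, hlz2, hlz3⟩ := collect3 b L M (by omega) (by omega) ly hly2
  refine ⟨lz ++ lx, ?_, ?_, ?_⟩
  · rw [List.length_append, hlz1, hly1, hlx1]
    omega
  · intro r hr
    rw [List.mem_append] at hr
    rcases hr with hr | hr
    · exact hlz2 r hr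
    · exact hlx2 r hr
  · rw [List.sum_append, hlz3, hly1, hly3, hN', hn, hW]
    omega

/-- The bound for large bases. -/
theorem large_bases (hP : PrimesWithDigits) (hCov : Covering) (hD : DigitSums)
    (hT : TotientBound) : ∃ C : ℝ, 0 < C ∧ ∃ b0 : ℕ, ∀ b : ℕ, b0 ≤ b →
    ∃ K : ℕ, 2 ≤ K ∧ (K : ℝ) ≤ C * Real.log b ∧ Cov b K := by
  obtain ⟨C1, hC1, hD⟩ := hD
  obtain ⟨C4, hC4, hT⟩ := hT
  set Ch : ℝ := 5 * 66 ^ 4 * C4 + 1 with hCh
  have hCh0 : 0 < Ch := by positivity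
  set D : ℝ := 2 * (6 * Ch + 1) + C1 + 1 with hDd
  have hD0 : 0 < D := by positivity
  -- the conditions on `b`
  have hlog : Filter.Tendsto (fun b : ℕ => Real.log b) Filter.atTop Filter.atTop :=
    Real.tendsto_log_atTop.comp tendsto_natCast_atTop_atTop
  have hev1 : ∀ᶠ b : ℕ in Filter.atTop, (8 * Real.log b) ^ 8 ≤ b := by
    have h1 := (Real.isLittleO_pow_log_id_atTop (n := 8)).bound
      (show (0 : ℝ) < 1 / 8 ^ 8 by positivity)
    have h2 := (tendsto_natCast_atTop_atTop (R := ℝ)).eventually h1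
    filter_upwards [h2, Filter.eventually_ge_atTop 1] with b hb hb1
    have h3 : (0 : ℝ) ≤ Real.log b := Real.log_natCast_nonneg b
    simp only [id, Real.norm_eq_abs] at hb
    rw [abs_of_nonneg (by positivity), abs_of_nonneg (by positivity)] at hb
    rw [mul_pow]
    have h4 := mul_le_mul_of_nonneg_left hb (show (0 : ℝ) ≤ 8 ^ 8 by positivity)
    calc (8 : ℝ) ^ 8 * Real.log b ^ 8 ≤ 8 ^ 8 * (1 / 8 ^ 8 * b) := h4
      _ = b := by ring
  have hev2 : ∀ᶠ b : ℕ in Filter.atTop, D * Real.log b ≤ b := by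
    have h1 := (Real.isLittleO_pow_log_id_atTop (n := 1)).bound
      (show (0 : ℝ) < 1 / D by positivity)
    have h2 := (tendsto_natCast_atTop_atTop (R := ℝ)).eventually h1
    filter_upwards [h2, Filter.eventually_ge_atTop 1] with b hb hb1
    have h3 : (0 : ℝ) ≤ Real.log b := Real.log_natCast_nonneg b
    simp only [id, Real.norm_eq_abs, pow_one] at hb
    rw [abs_of_nonneg h3, abs_of_nonneg (by positivity)] at hb
    have h4 := mul_le_mul_of_nonneg_left hb hD0.le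
    calc D * Real.log b ≤ D * (1 / D * b) := h4
      _ = b := by field_simp
  obtain ⟨b0, hb0⟩ := Filter.eventually_atTop.1 (hev1.and (hev2.and
    ((hlog.eventually_ge_atTop 1).and (Filter.eventually_ge_atTop 8))))
  refine ⟨6 * Ch + D + 2, by positivity, b0, ?_⟩
  intro b hb
  obtain ⟨h1, h2, h3, h8⟩ := hb0 b hb
  have hbr : (8 : ℝ) ≤ b := by exact_mod_cast h8
  have hbp : (0 : ℝ) < b := by linarith
  have hb2 : 2 ≤ b := by omega
  set lb := Real.log b with hlb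
  have hFi1 := one_le_Fi b hb2
  have hrho : (rho b / b) ^ 8 ≤ b := by
    refine le_trans ?_ h1
    apply pow_le_pow_left₀ (div_nonneg (rho_nonneg b) hbp.le)
    rw [div_le_iff₀ hbp]
    refine (rho_le b hb2).trans ?_
    nlinarith
  set h : ℕ := ⌈5 * (66 * Fi b) ^ 4⌉₊ with hh
  have hh1 : 5 * (66 * Fi b) ^ 4 ≤ h := Nat.le_ceil _
  have hh2 : (h : ℝ) ≤ Ch * lb := by
    have h5 : (h : ℝ) < 5 * (66 * Fi b) ^ 4 + 1 := Nat.ceil_lt_add_one (by positivity)
    have h6 := hT b hb2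
    have h7 : Fi b ^ 4 ≤ C4 * lb := h6
    calc (h : ℝ) ≤ 5 * (66 * Fi b) ^ 4 + 1 := h5.le
      _ = 5 * 66 ^ 4 * Fi b ^ 4 + 1 := by ring
      _ ≤ 5 * 66 ^ 4 * (C4 * lb) + 1 * lb := by
          have := mul_le_mul_of_nonneg_left h7 (show (0 : ℝ) ≤ 5 * 66 ^ 4 by positivity)
          linarith
      _ = Ch * lb := by rw [hCh]; ring
  set m : ℕ := ⌊2 * ((6 * h + 1 : ℕ) : ℝ) + C1 * lb⌋₊ with hm
  have hm1 : (m : ℝ) ≤ 2 * ((6 * h + 1 : ℕ) : ℝ) + C1 * lb := Nat.floor_le (by positivity)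
  have hm2 : (m : ℝ) ≤ D * lb := by
    refine hm1.trans ?_
    push_cast
    rw [hDd]
    nlinarith
  have hmb : m ≤ b := by
    have : (m : ℝ) ≤ b := hm2.trans h2
    exact_mod_cast this
  have hcov := one_base hP hCov b h8 hrho h hh1 m (by
    intro t ht
    obtain ⟨l, hl1, hl2, hl3⟩ := hD b (by omega) (6 * h + 1) t ht
    exact ⟨l, Nat.le_floor hl1, hl2, hl3⟩) hmb
  refine ⟨6 * h + m + 2, by omega, ?_, ?_⟩
  · push_cast
    have : (6 * Ch + D + 2) * lb = 6 * (Ch * lb) + D * lb + 2 * lb := by ring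
    rw [this]
    linarith
  · obtain ⟨N₀, hN⟩ := hcov
    refine ⟨N₀, fun N hNN => ?_⟩
    obtain ⟨l, hl1, hl2, hl3⟩ := hN N hNN
    exact ⟨l, by omega, hl2, hl3⟩

/-- The bound for all bases. -/
theorem all_bases (hP : PrimesWithDigits) (hCov : Covering) (hD : DigitSums)
    (hT : TotientBound) : ∃ C : ℝ, 0 < C ∧ ∀ b : ℕ, 2 ≤ b →
    ∃ K : ℕ, 2 ≤ K ∧ (K : ℝ) ≤ C * Real.log b ∧ Cov b K := by
  obtain ⟨C, hC, b0, h⟩ := large_bases hP hCov hD hT
  have hsmall : ∀ b : ℕ, ∃ K : ℕ, 2 ≤ b → 2 ≤ K ∧ Cov b K := by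
    intro b
    by_cases hb : 2 ≤ b
    · obtain ⟨K, N₀, h1, h2⟩ := basis b hb
      exact ⟨K, fun _ => ⟨h1, N₀, h2⟩⟩
    · exact ⟨0, fun h => absurd h hb⟩
  choose f hf using hsmall
  have hl2 : 0 < Real.log 2 := Real.log_pos (by norm_num)
  set C' : ℝ := (∑ b ∈ range b0, (f b : ℝ)) / Real.log 2 with hC'
  have hC'0 : 0 ≤ C' := by positivity
  refine ⟨C + C', by positivity, ?_⟩
  intro b hb
  have hbr : (2 : ℝ) ≤ b := by exact_mod_cast hb
  have hlb : Real.log 2 ≤ Real.log b := Real.log_le_log (by norm_num) hbr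
  have hlb0 : 0 < Real.log b := by linarith
  rcases Nat.lt_or_ge b b0 with h1 | h1
  · refine ⟨f b, (hf b hb).1, ?_, (hf b hb).2⟩
    have h2 : (f b : ℝ) ≤ ∑ b ∈ range b0, (f b : ℝ) :=
      single_le_sum (f := fun b => (f b : ℝ)) (fun _ _ => Nat.cast_nonneg _) (mem_range.2 h1)
    calc (f b : ℝ) ≤ ∑ b ∈ range b0, (f b : ℝ) := h2
      _ = C' * Real.log 2 := by rw [hC']; field_simp
      _ ≤ C' * Real.log b := mul_le_mul_of_nonneg_left hlb hC'0
      _ ≤ (C + C') * Real.log b := by nlinarith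
  · obtain ⟨K, h2, h3, h4⟩ := h b h1
    refine ⟨K, h2, h3.trans ?_, h4⟩
    nlinarith

end Pool.Agent.R482.KB
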