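import Pool.Agent.R482.KB.Nrg
import Pool.Agent.R456.RP.Final

/-! The sums of two reversed primes with `L` digits have a density bounded below by the fourth power
of `φ (q) / q`, `q = b (b ^ 2 - 1)`. -/

set_option autoImplicit false

namespace Pool.Agent.R482.KB
open Finset
open Pool.Agent.R456.RP
open Pool.Agent.Helper923.PPS
open scoped Pointwise

lemma cop_sum (q : ℕ) (hq : 0 < q) (K : ℕ) :
    ((Nat.totient q : ℝ) / q) * ∑ k ∈ Icc 1 K, (k : ℝ)⁻¹ ≤
      ∑ n ∈ Ico 1 (1 + K * q), if Nat.Coprime q n then (n : ℝ)⁻¹ else 0 := by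
  have hqr : (0 : ℝ) < q := by exact_mod_cast hq
  induction K with
  | zero => simp
  | succ K ih =>
    rw [Finset.sum_Icc_succ_top (by omega), mul_add,
      ← sum_Ico_consecutive _ (show 1 ≤ 1 + K * q by omega)
        (show 1 + K * q ≤ 1 + (K + 1) * q by nlinarith)]
    refine add_le_add ih ?_
    have h1 : 1 + (K + 1) * q = (1 + K * q) + q := by ring
    rw [h1, ← sum_filter]
    have h2 := Nat.filter_coprime_Ico_eq_totient q (1 + K * q)
    calc ((Nat.totient q : ℝ) / q) * (((K + 1 : ℕ) : ℝ))⁻¹ =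
        ∑ n ∈ (Ico (1 + K * q) (1 + K * q + q)).filter (fun x => q.Coprime x),
          ((((K + 1) * q : ℕ) : ℝ))⁻¹ := by
          rw [sum_const, nsmul_eq_mul, h2]
          push_cast
          have : (K : ℝ) + 1 ≠ 0 := by positivity
          field_simp
      _ ≤ _ := by
          apply sum_le_sum
          intro n hn
          rw [mem_filter, mem_Ico] at hn
          have hn0 : (0 : ℝ) < n := by exact_mod_cast (by omega : 0 < n)
          apply inv_anti₀ hn0
          have h3 : n ≤ (K + 1) * q := by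
            have : (K + 1) * q = K * q + q := by ring
            omega
          exact_mod_cast h3

lemma selS_phi (q R : ℕ) (hq : 0 < q) (hR : 1 ≤ R) :
    ((Nat.totient q : ℝ) / q) * Real.log ((R : ℝ) / q) / 2 ≤ selS (apSieve 0 q 0 R) R := by
  have h1 := selS_ge 0 q 0 R
  have h2 := sum_inv_le_two_mul q R
  have hqr : (0 : ℝ) < q := by exact_mod_cast hq
  have h3 := cop_sum q hq (R / q)
  have h4 : ∑ n ∈ Ico 1 (1 + R / q * q), (if Nat.Coprime q n then (n : ℝ)⁻¹ else 0) ≤
      ∑ n ∈ (Icc 1 R).filter (fun n => Nat.Coprime n q), (n : ℝ)⁻¹ := by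
    rw [← sum_filter]
    apply sum_le_sum_of_subset_of_nonneg
    · intro n hn
      rw [mem_filter, mem_Ico] at hn
      rw [mem_filter, mem_Icc]
      have h5 : R / q * q ≤ R := Nat.div_mul_le_self _ _
      exact ⟨⟨by omega, by omega⟩, hn.2.symm⟩
    · intros; positivity
  have h5 := log_add_one_le_harmonic (R / q)
  rw [harmonic_eq_sum_Icc] at h5
  push_cast at h5
  have h6 : Real.log ((R : ℝ) / q) ≤ Real.log (((R / q : ℕ) : ℝ) + 1) := by
    have hR0 : (0 : ℝ) < R := by exact_mod_cast hR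
    apply Real.log_le_log (by positivity)
    rw [div_le_iff₀ hqr]
    have h6 : R ≤ (R / q + 1) * q := by
      have h7 := Nat.lt_div_mul_add (a := R) hq
      have h8 : (R / q + 1) * q = R / q * q + q := by ring
      omega
    exact_mod_cast h6
  have h7 : Real.log ((R : ℝ) / q) ≤ ∑ k ∈ Icc 1 (R / q), (k : ℝ)⁻¹ := h6.trans h5
  have h8 : 0 ≤ (Nat.totient q : ℝ) / q := by positivity
  have h9 := mul_le_mul_of_nonneg_left h7 h8
  linarith

/-- many primes with exactly `L` digits -/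
lemma many_exact (b : ℕ) (hb : 8 ≤ b) : ∃ L1 : ℕ, ∀ L : ℕ, L1 ≤ L →
    (b : ℝ) ^ L / 2 ≤ L * Real.log b * ((Pr b L).card : ℝ) := by
  have hbr : (8 : ℝ) ≤ b := by exact_mod_cast hb
  have hb0 : (0 : ℝ) < b := by linarith
  have hlb : 0 < Real.log b := Real.log_pos (by linarith)
  have hlim : ∀ᶠ x : ℝ in Filter.atTop, Real.log (x + 1) + 2 * Real.sqrt x * Real.log x ≤
      (1 / 100) * x := by
    have h1 : (fun x : ℝ => Real.log x) =o[Filter.atTop] (fun x : ℝ => x ^ (1 / 4 : ℝ)) :=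
      isLittleO_log_rpow_atTop (by norm_num)
    have h2 := h1.bound (show (0 : ℝ) < 1 by norm_num)
    have h3 : Filter.Tendsto (fun x : ℝ => x ^ (1 / 4 : ℝ)) Filter.atTop Filter.atTop :=
      tendsto_rpow_atTop (by norm_num)
    filter_upwards [h2, h3.eventually_ge_atTop 1000, Filter.eventually_ge_atTop 1,
      (Filter.tendsto_atTop_add_const_right Filter.atTop (1 : ℝ) Filter.tendsto_id).eventually h2]
      with x hx1 hx2 hx3 hx4
    have hx0 : 0 < x := by linarith
    set y := x ^ (1 / 4 : ℝ) with hy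
    have hy4 : y ^ 4 = x := by
      rw [hy, ← Real.rpow_natCast, ← Real.rpow_mul hx0.le]; norm_num
    have hsq : Real.sqrt x = y ^ 2 := by
      rw [← hy4, show y ^ 4 = (y ^ 2) ^ 2 by ring, Real.sqrt_sq (by positivity)]
    have hlog : Real.log x ≤ y := by
      rw [one_mul, Real.norm_eq_abs, Real.norm_eq_abs, abs_of_nonneg (Real.log_nonneg hx3),
        abs_of_nonneg (by positivity)] at hx1
      exact hx1
    have hlog2 : Real.log (x + 1) ≤ 2 * y := by
      have h5 : Real.log (x + 1) ≤ (x + 1) ^ (1 / 4 : ℝ) := by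
        simp only [id] at hx4
        rw [one_mul, Real.norm_eq_abs, Real.norm_eq_abs,
          abs_of_nonneg (Real.log_nonneg (by linarith)), abs_of_nonneg (by positivity)] at hx4
        exact hx4
      refine h5.trans ?_
      calc (x + 1) ^ (1 / 4 : ℝ) ≤ (16 * x) ^ (1 / 4 : ℝ) :=
            Real.rpow_le_rpow (by linarith) (by linarith) (by norm_num)
        _ = 2 * y := by
            rw [Real.mul_rpow (by norm_num) hx0.le]
            congr 1
            rw [show (16 : ℝ) = 2 ^ (4 : ℝ) by norm_num, ← Real.rpow_mul (by norm_num)]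
            norm_num
    rw [hsq]
    have hy0 : 0 < y := by linarith
    calc Real.log (x + 1) + 2 * y ^ 2 * Real.log x ≤ 2 * y + 2 * y ^ 2 * y := by
          gcongr
      _ ≤ (1 / 100) * y ^ 4 := by
          have h6 : 1000 * y ^ 3 ≤ y ^ 4 := by
            calc 1000 * y ^ 3 ≤ y * y ^ 3 := by gcongr
              _ = y ^ 4 := by ring
          have h7 : y ≤ y ^ 3 := by
            have : 1 ≤ y ^ 2 := by nlinarith
            nlinarith
          nlinarith
      _ = (1 / 100) * x := by rw [hy4]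
  have hlim2 : Filter.Tendsto (fun L : ℕ => (b : ℝ) ^ L) Filter.atTop Filter.atTop :=
    tendsto_pow_atTop_atTop_of_one_lt (by linarith)
  obtain ⟨L1, hL1⟩ := Filter.eventually_atTop.1 (hlim2.eventually hlim)
  refine ⟨max L1 4, ?_⟩
  intro L hL
  have hLL1 := (le_max_left _ _).trans hL
  have hL4 : 4 ≤ L := (le_max_right _ _).trans hL
  have h1 := hL1 L hLL1
  have h2 := Chebyshev.theta_ge (b ^ L)
  have h3 := Chebyshev.theta_le_log4_mul_x (x := ((b ^ (L - 1) : ℕ) : ℝ)) (by positivity)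
  push_cast at h2
  set X : ℝ := (b : ℝ) ^ L with hX
  have hX0 : 0 < X := by positivity
  have h4 : ((b ^ (L - 1) : ℕ) : ℝ) ≤ X / 8 := by
    push_cast
    rw [le_div_iff₀ (by norm_num), hX]
    calc (b : ℝ) ^ (L - 1) * 8 ≤ (b : ℝ) ^ (L - 1) * b := by gcongr
      _ = (b : ℝ) ^ L := by rw [← pow_succ]; congr 1; omega
  have hl2 := Real.log_two_gt_d9
  have hl2' := Real.log_two_lt_d9
  have hl4 : Real.log 4 = 2 * Real.log 2 := by
    rw [show (4 : ℝ) = 2 ^ 2 by norm_num, Real.log_pow]; norm_num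
  have h5 : X / 2 ≤ Chebyshev.theta X - Chebyshev.theta ((b ^ (L - 1) : ℕ) : ℝ) := by
    have h6 : Real.log 4 * ((b ^ (L - 1) : ℕ) : ℝ) ≤ Real.log 4 * (X / 8) :=
      mul_le_mul_of_nonneg_left h4 (by rw [hl4]; linarith)
    rw [hl4] at h6 h3
    have h7 : X * Real.log 2 - 2 * Real.log 2 * (X / 8) ≥ 0.51 * X := by nlinarith
    linarith
  refine h5.trans ?_
  -- theta difference
  have hsub : Chebyshev.theta X - Chebyshev.theta ((b ^ (L - 1) : ℕ) : ℝ) ≤
      ∑ p ∈ Pr b L, Real.log p := by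
    have e1 : Chebyshev.theta X = ∑ p ∈ (Ioc 0 (b ^ L)).filter Nat.Prime, Real.log p := by
      have : X = ((b ^ L : ℕ) : ℝ) := by rw [hX]; push_cast; rfl
      rw [this]
      unfold Chebyshev.theta
      rw [Nat.floor_natCast]
    have e2 : Chebyshev.theta ((b ^ (L - 1) : ℕ) : ℝ) =
        ∑ p ∈ (Ioc 0 (b ^ (L - 1))).filter Nat.Prime, Real.log p := by
      unfold Chebyshev.theta
      rw [Nat.floor_natCast]
    rw [e1, e2, sub_le_iff_le_add', ← sum_union_inter]
    have hnn : ∀ p : ℕ, 0 ≤ Real.log p := fun p => Real.log_natCast_nonneg p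
    have h6 : ∑ p ∈ (Ioc 0 (b ^ L)).filter Nat.Prime, Real.log p ≤
        ∑ p ∈ (Ioc 0 (b ^ (L - 1))).filter Nat.Prime ∪ Pr b L, Real.log p := by
      apply sum_le_sum_of_subset_of_nonneg
      · intro p hp
        rw [mem_filter, mem_Ioc] at hp
        have hpL : p ≠ b ^ L := by
          rintro rfl
          exact Nat.Prime.not_prime_pow (by omega) hp.2
        simp only [mem_union, mem_filter, mem_Ioc, Pr, mem_Ico]
        by_cases h7 : b ^ (L - 1) ≤ p
        · right; exact ⟨⟨h7, by omega⟩, hp.2⟩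
        · left; exact ⟨⟨hp.1.1, by omega⟩, hp.2⟩
      · intro p _ _; exact hnn p
    have h7 : 0 ≤ ∑ p ∈ (Ioc 0 (b ^ (L - 1))).filter Nat.Prime ∩ Pr b L, Real.log p :=
      sum_nonneg (fun p _ => hnn p)
    linarith
  refine hsub.trans ?_
  have hlog : ∀ p ∈ Pr b L, Real.log p ≤ L * Real.log b := by
    intro p hp
    have hpL : p < b ^ L ∧ 0 < p := by
      simp only [mem_filter, Pr, mem_Ico] at hp
      exact ⟨hp.1.2, hp.2.pos⟩
    rw [← Real.log_pow]
    apply Real.log_le_log (by exact_mod_cast hpL.2)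
    exact_mod_cast hpL.1.le
  calc ∑ p ∈ Pr b L, Real.log p ≤ ∑ p ∈ Pr b L, L * Real.log b := sum_le_sum hlog
    _ = _ := by rw [sum_const, nsmul_eq_mul]; ring

/-- the quotient `q / φ (q)` for `q = b (b ^ 2 - 1)` -/
noncomputable def Fi (b : ℕ) : ℝ := ((q0 b : ℕ) : ℝ) / (Nat.totient (q0 b) : ℝ)

lemma q0_pos (b : ℕ) (hb : 2 ≤ b) : 0 < q0 b := by
  unfold q0
  apply Nat.mul_pos (by omega)
  have : 2 ^ 2 ≤ b ^ 2 := Nat.pow_le_pow_left hb 2
  omega

lemma one_le_Fi (b : ℕ) (hb : 2 ≤ b) : 1 ≤ Fi b := by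
  unfold Fi
  have h1 := Nat.totient_pos.2 (q0_pos b hb)
  rw [one_le_div (by exact_mod_cast h1)]
  exact_mod_cast Nat.totient_le _

open Classical in
/-- The sumset of the reversed primes with `L` digits. -/
theorem dense (b : ℕ) (hb : 8 ≤ b) (hrho : (rho b / b) ^ 8 ≤ b) : ∃ L0 : ℕ, ∀ L : ℕ, L0 ≤ L →
    (1 / (66 * Fi b) ^ 4) * (b : ℝ) ^ L ≤
      (((Pr b L).image (rev b L) + (Pr b L).image (rev b L)).card : ℝ) := by
  have hb2 : 2 ≤ b := by omega
  have hbr : (8 : ℝ) ≤ b := by exact_mod_cast hb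
  have hb0 : (0 : ℝ) < b := by linarith
  have hlb : 0 < Real.log b := Real.log_pos (by linarith)
  obtain ⟨K, c, hK, hc, hFF⟩ := FF_bound b hb2 hrho
  obtain ⟨L1, hM⟩ := many_exact b hb
  have hq := q0_pos b hb2
  have hqr : (0 : ℝ) < q0 b := by exact_mod_cast hq
  have hFi1 := one_le_Fi b hb2
  have hFi0 : 0 < Fi b := by linarith
  have htot : (0 : ℝ) < (Nat.totient (q0 b) : ℝ) := by exact_mod_cast Nat.totient_pos.2 hq
  -- the error term
  have hlim : Filter.Tendsto (fun L : ℕ => (K * (1 + (L : ℝ)) ^ 5 * Real.exp (-c * Real.sqrt L)) * L)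
      Filter.atTop (nhds 0) := by
    have h1 : Filter.Tendsto (fun y : ℝ => y ^ 12 * Real.exp (-y)) Filter.atTop (nhds 0) :=
      Real.tendsto_pow_mul_exp_neg_atTop_nhds_zero 12
    have h2 : Filter.Tendsto (fun L : ℕ => c * Real.sqrt L) Filter.atTop Filter.atTop := by
      apply Filter.Tendsto.const_mul_atTop hc
      exact Real.tendsto_sqrt_atTop.comp tendsto_natCast_atTop_atTop
    have h3 := (h1.comp h2).const_mul (K * 32 / c ^ 12)
    rw [mul_zero] at h3
    refine squeeze_zero' (Filter.Eventually.of_forall fun L => by positivity) ?_ h3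
    filter_upwards [Filter.eventually_ge_atTop 1] with L hL
    have hL1 : (1 : ℝ) ≤ L := by exact_mod_cast hL
    simp only [Function.comp]
    have h4 : (c * Real.sqrt L) ^ 12 = c ^ 12 * (L : ℝ) ^ 6 := by
      rw [mul_pow]
      congr 1
      calc Real.sqrt L ^ 12 = (Real.sqrt L ^ 2) ^ 6 := by ring
        _ = _ := by rw [Real.sq_sqrt (by positivity)]
    rw [h4]
    have h5 : (1 + (L : ℝ)) ^ 5 ≤ 32 * (L : ℝ) ^ 5 := by
      calc (1 + (L : ℝ)) ^ 5 ≤ (2 * L) ^ 5 := pow_le_pow_left₀ (by positivity) (by linarith) 5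
        _ = _ := by ring
    have h6 : K * 32 / c ^ 12 * (c ^ 12 * (L : ℝ) ^ 6 * Real.exp (-(c * Real.sqrt L))) =
        K * (32 * (L : ℝ) ^ 5) * Real.exp (-c * Real.sqrt L) * L := by
      rw [neg_mul]
      field_simp
    rw [h6]
    gcongr
  have hlim' := hlim.mul_const (Real.log b)
  rw [zero_mul] at hlim'
  have hev1 := hlim'.eventually (gt_mem_nhds (by norm_num : (0 : ℝ) < 1))
  -- the main term
  have hev2 : ∀ᶠ L : ℕ in Filter.atTop,
      (L : ℝ) * (Real.log b / 16) ≤ Real.log (((b ^ (L / 8) : ℕ) : ℝ) / q0 b) := by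
    have h1 : Filter.Tendsto (fun L : ℕ => (L : ℝ) * (Real.log b / 16)) Filter.atTop
        Filter.atTop := by
      apply Filter.Tendsto.atTop_mul_const (by positivity)
      exact tendsto_natCast_atTop_atTop
    filter_upwards [h1.eventually_ge_atTop (Real.log b + Real.log (q0 b))] with L hL
    have h2 : (L : ℝ) / 8 - 1 ≤ ((L / 8 : ℕ) : ℝ) := by
      have h3 : L ≤ 8 * (L / 8) + 8 := by omega
      have h4 : (L : ℝ) ≤ 8 * ((L / 8 : ℕ) : ℝ) + 8 := by exact_mod_cast h3
      linarith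
    rw [Real.log_div (by positivity) (by positivity)]
    push_cast
    rw [Real.log_pow]
    have h3 := mul_le_mul_of_nonneg_right h2 hlb.le
    linarith
  obtain ⟨L0, hL0⟩ := Filter.eventually_atTop.1 (hev1.and (hev2.and (Filter.eventually_ge_atTop 3)))
  refine ⟨max L0 L1, ?_⟩
  intro L hL
  obtain ⟨hT1, hMn, hL3⟩ := hL0 L ((le_max_left _ _).trans hL)
  have hcount := hM L ((le_max_right _ _).trans hL)
  set R := b ^ (L / 8) with hR
  have hR1 : 1 ≤ R := Nat.one_le_pow _ _ (by omega)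
  have hLr : (0 : ℝ) < L := by exact_mod_cast (by omega : 0 < L)
  set A := (Pr b L).image (rev b L) with hA
  have hE := energy_le b L R hb2 hR1 (Pr b L) (by
    intro n hn
    unfold Pr at hn
    rw [mem_filter, mem_Ico] at hn
    rw [mem_range]
    exact hn.1.2) (by
    intro n hn
    unfold Pr at hn
    rw [mem_filter, mem_Ico] at hn
    rw [Nat.coprime_comm, hn.2.coprime_iff_not_dvd, prime_dvd_PP hn.2]
    rintro ⟨h1, _⟩
    have h4 : R < b ^ (L - 1) := Nat.pow_lt_pow_right (by omega) (by omega)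
    omega)
  rw [← hA] at hE
  have hFFL := hFF L
  set lam : ℝ := (selS (apSieve 0 (q0 b) 0 R) (R : ℝ))⁻¹ with hlam
  have hsel := selS_phi (q0 b) R hq hR1
  have hS : L * Real.log b / (32 * Fi b) ≤ selS (apSieve 0 (q0 b) 0 R) R := by
    refine le_trans ?_ hsel
    have h1 : (Nat.totient (q0 b) : ℝ) / q0 b = 1 / Fi b := by
      unfold Fi; rw [one_div_div]
    rw [h1]
    calc L * Real.log b / (32 * Fi b) = 1 / Fi b * (L * (Real.log b / 16)) / 2 := by
          field_simp; ring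
      _ ≤ _ := by
          apply div_le_div_of_nonneg_right _ (by norm_num)
          exact mul_le_mul_of_nonneg_left hMn (by positivity)
  have hlam1 : lam ≤ 32 * Fi b / (L * Real.log b) := by
    rw [hlam]
    have h1 : 32 * Fi b / (L * Real.log b) = (L * Real.log b / (32 * Fi b))⁻¹ := by
      rw [inv_div]
    rw [h1]
    exact inv_anti₀ (by positivity) hS
  have herr : K * (1 + (L : ℝ)) ^ 5 * Real.exp (-c * Real.sqrt L) ≤ Fi b / (L * Real.log b) := by
    rw [le_div_iff₀ (by positivity)]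
    have h1 : K * (1 + (L : ℝ)) ^ 5 * Real.exp (-c * Real.sqrt L) * (L * Real.log b) =
      K * (1 + (L : ℝ)) ^ 5 * Real.exp (-c * Real.sqrt L) * L * Real.log b := by ring
    rw [h1]
    linarith
  have hnorm : ‖vec (b ^ L) (FF b L R)‖ ≤ (b : ℝ) ^ L * (33 * Fi b / (L * Real.log b)) := by
    refine hFFL.trans ?_
    apply mul_le_mul_of_nonneg_left _ (by positivity)
    calc _ ≤ 32 * Fi b / (L * Real.log b) + Fi b / (L * Real.log b) := add_le_add hlam1 herr
      _ = _ := by ring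
  have hnorm4 := pow_le_pow_left₀ (norm_nonneg _) hnorm 4
  have hE2 := hE.trans hnorm4
  have hAcard : A.card = (Pr b L).card := by
    rw [hA]
    apply card_image_of_injOn
    intro n hn m hm h
    rw [mem_coe] at hn hm
    unfold Pr at hn hm
    rw [mem_filter, mem_Ico] at hn hm
    exact rev_inj b L (by omega) n hn.1.2 m hm.1.2 h
  have h6 := Finset.le_card_add_mul_addEnergy A A
  have h7 : ((A.card : ℝ)) ^ 4 ≤ ((A + A).card : ℝ) * ((A.addEnergy A : ℕ) : ℝ) := by
    have : A.card ^ 4 ≤ (A + A).card * A.addEnergy A := by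
      calc A.card ^ 4 = A.card ^ 2 * A.card ^ 2 := by ring
        _ ≤ _ := h6
    exact_mod_cast this
  set X : ℝ := (b : ℝ) ^ L with hX
  have hX0 : 0 < X := by positivity
  set Y : ℝ := L * Real.log b with hY
  have hY0 : 0 < Y := by positivity
  have h8 : X / 2 ≤ Y * (A.card : ℝ) := by rw [hAcard]; exact hcount
  have h9 : (X / 2) ^ 4 ≤ (Y * (A.card : ℝ)) ^ 4 := pow_le_pow_left₀ (by positivity) h8 4
  have hAA0 : (0 : ℝ) ≤ ((A + A).card : ℝ) := Nat.cast_nonneg _
  have h10 : X * (X / 2) ^ 4 ≤ ((A + A).card : ℝ) * (X * (33 * Fi b)) ^ 4 := by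
    calc X * (X / 2) ^ 4 ≤ X * (Y * (A.card : ℝ)) ^ 4 := mul_le_mul_of_nonneg_left h9 hX0.le
      _ = Y ^ 4 * (X * (A.card : ℝ) ^ 4) := by ring
      _ ≤ Y ^ 4 * (X * (((A + A).card : ℝ) * ((A.addEnergy A : ℕ) : ℝ))) := by gcongr
      _ = Y ^ 4 * ((A + A).card : ℝ) * (X * ((A.addEnergy A : ℕ) : ℝ)) := by ring
      _ ≤ Y ^ 4 * ((A + A).card : ℝ) * (X * (33 * Fi b / Y)) ^ 4 := by gcongr
      _ = _ := by field_simp
  rw [one_div, inv_mul_le_iff₀ (by positivity)]
  have h11 : X ^ 4 * X ≤ X ^ 4 * ((66 * Fi b) ^ 4 * ((A + A).card : ℝ)) := by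
    have h12 : X ^ 4 * X = 16 * (X * (X / 2) ^ 4) := by ring
    have h13 : X ^ 4 * ((66 * Fi b) ^ 4 * ((A + A).card : ℝ)) =
        16 * (((A + A).card : ℝ) * (X * (33 * Fi b)) ^ 4) := by ring
    rw [h12, h13]
    linarith
  exact le_of_mul_le_mul_left h11 (by positivity)

end Pool.Agent.R482.KB
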