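import Pool.Agent.R456.RP.Norm

/-! A bound in mean over a well spaced set for the exponential sum over the reversed integers. -/

set_option autoImplicit false

namespace Pool.Agent.R482.KB
open Finset
open Pool.Agent.R456.RP

/-- the Dirichlet kernel -/
noncomputable def Db (b : ℕ) (x : ℝ) : ℂ := ∑ d ∈ range b, e (x * d)

lemma norm_Db_le (b : ℕ) (x : ℝ) : ‖Db b x‖ ≤ b := by
  unfold Db
  refine (norm_sum_le _ _).trans ?_
  simp [norm_e]

lemma norm_e_sub_one (x : ℝ) : 4 * dn x ≤ ‖e x - 1‖ := by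
  have h1 : ‖e x - 1‖ ^ 2 = 2 * (1 - Real.cos (2 * Real.pi * x)) := by
    have hre : (e x).re = Real.cos (2 * Real.pi * x) := e_re x
    have him : (e x).im = Real.sin (2 * Real.pi * x) := by
      unfold e
      exact Complex.exp_ofReal_mul_I_im _
    rw [← Complex.normSq_eq_norm_sq, Complex.normSq_apply, Complex.sub_re, Complex.sub_im, hre, him,
      Complex.one_re, Complex.one_im]
    have := Real.sin_sq_add_cos_sq (2 * Real.pi * x)
    nlinarith
  have h2 := one_sub_cos x
  have h3 : (4 * dn x) ^ 2 ≤ ‖e x - 1‖ ^ 2 := by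
    rw [h1]
    nlinarith
  exact le_of_pow_le_pow_left₀ (by norm_num) (norm_nonneg _) h3

lemma e_mul_nat (x : ℝ) (d : ℕ) : e (x * d) = e x ^ d := by
  unfold e
  rw [← Complex.exp_nat_mul]
  congr 1
  push_cast
  ring

lemma norm_Db_mul (b : ℕ) (x : ℝ) : ‖Db b x‖ * (4 * dn x) ≤ 2 := by
  have h1 : Db b x * (e x - 1) = e x ^ b - 1 := by
    unfold Db
    rw [sum_congr rfl (fun d _ => e_mul_nat x d)]
    exact geom_sum_mul (e x) b
  have h2 : ‖Db b x‖ * ‖e x - 1‖ ≤ 2 := by
    rw [← norm_mul, h1]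
    refine (norm_sub_le _ _).trans ?_
    rw [norm_pow, norm_e]
    norm_num
  refine le_trans ?_ h2
  exact mul_le_mul_of_nonneg_left (norm_e_sub_one x) (norm_nonneg _)

/-- the weight of a cell -/
noncomputable def cw (b s : ℕ) : ℝ :=
  ((if s = 0 then (b : ℝ) else 0) + (if s = b - 1 then (b : ℝ) else 0)) +
    b / 2 * (1 / (s : ℝ) + 1 / ((b - 1 - s : ℕ) : ℝ))

lemma cw_nonneg (b s : ℕ) : 0 ≤ cw b s := by
  unfold cw
  split_ifs <;> positivity

lemma cell_Db (b : ℕ) (hb : 2 ≤ b) (x : ℝ) : ‖Db b x‖ ≤ cw b ⌊(b : ℝ) * Int.fract x⌋₊ := by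
  have hbr : (2 : ℝ) ≤ b := by exact_mod_cast hb
  have hb0 : (0 : ℝ) < b := by linarith
  set u := Int.fract x with hu
  have hu0 : 0 ≤ u := Int.fract_nonneg x
  have hu1 : u < 1 := Int.fract_lt_one x
  set s := ⌊(b : ℝ) * u⌋₊ with hs
  have hs1 : (s : ℝ) ≤ b * u := Nat.floor_le (by positivity)
  have hs2 : (b : ℝ) * u < s + 1 := Nat.lt_floor_add_one _
  have hsb : s < b := by
    have : (s : ℝ) < b := by nlinarith
    exact_mod_cast this
  unfold cw
  by_cases h0 : s = 0
  · rw [if_pos h0]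
    have h1 := norm_Db_le b x
    have h2 : (0 : ℝ) ≤ (if s = b - 1 then (b : ℝ) else 0) := by split_ifs <;> positivity
    have h3 : (0 : ℝ) ≤ b / 2 * (1 / (s : ℝ) + 1 / ((b - 1 - s : ℕ) : ℝ)) := by positivity
    linarith
  by_cases h1 : s = b - 1
  · rw [if_pos h1]
    have h1 := norm_Db_le b x
    have h2 : (0 : ℝ) ≤ (if s = 0 then (b : ℝ) else 0) := by split_ifs <;> positivity
    have h3 : (0 : ℝ) ≤ b / 2 * (1 / (s : ℝ) + 1 / ((b - 1 - s : ℕ) : ℝ)) := by positivity
    linarith
  rw [if_neg h0, if_neg h1, add_zero, zero_add]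
  have hs0 : (0 : ℝ) < s := by exact_mod_cast Nat.pos_of_ne_zero h0
  set v : ℕ := b - 1 - s with hv
  have hv0' : 0 < v := by omega
  have hv0 : (0 : ℝ) < v := by exact_mod_cast hv0'
  have hvr : (v : ℝ) = b - 1 - s := by
    rw [hv, Nat.cast_sub (by omega), Nat.cast_sub (by omega)]
    push_cast; ring
  set c : ℝ := min ((s : ℝ) / b) ((v : ℝ) / b) with hc
  have hc0 : 0 < c := lt_min (by positivity) (by positivity)
  have hdn : c ≤ dn x := by
    apply le_dn
    intro n
    have hx : x = ⌊x⌋ + u := by rw [hu]; exact (Int.floor_add_fract x).symm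
    rcases le_or_gt n ⌊x⌋ with hn | hn
    · have hn' : (n : ℝ) ≤ ⌊x⌋ := by exact_mod_cast hn
      have h3 : (s : ℝ) / b ≤ x - n := by
        rw [div_le_iff₀ hb0]
        have : u ≤ x - n := by linarith
        nlinarith
      exact ((min_le_left _ _).trans h3).trans (le_abs_self _)
    · have hn' : (⌊x⌋ : ℝ) + 1 ≤ n := by exact_mod_cast hn
      have h3 : (v : ℝ) / b ≤ -(x - n) := by
        rw [div_le_iff₀ hb0, hvr]
        have : 1 - u ≤ -(x - n) := by linarith
        nlinarith
      exact ((min_le_right _ _).trans h3).trans (neg_le_abs _)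
  have h2 := norm_Db_mul b x
  have h3 : ‖Db b x‖ * (4 * c) ≤ 2 := by
    refine le_trans ?_ h2
    exact mul_le_mul_of_nonneg_left (by linarith) (norm_nonneg _)
  have h4 : ‖Db b x‖ ≤ 2 / (4 * c) := by rwa [le_div_iff₀ (by positivity)]
  refine h4.trans ?_
  rcases min_choice ((s : ℝ) / b) ((v : ℝ) / b) with h5 | h5
  · rw [hc, h5]
    have : 2 / (4 * ((s : ℝ) / b)) = b / 2 * (1 / s) := by field_simp; ring
    rw [this]
    have : 0 ≤ (b : ℝ) / 2 * (1 / (v : ℝ)) := by positivity
    linarith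
  · rw [hc, h5]
    have : 2 / (4 * ((v : ℝ) / b)) = b / 2 * (1 / v) := by field_simp; ring
    rw [this]
    have : 0 ≤ (b : ℝ) / 2 * (1 / (s : ℝ)) := by positivity
    linarith

lemma sum_range_inv (k : ℕ) : ∑ s ∈ range k, 1 / ((s + 1 : ℕ) : ℝ) = Hs k := by
  induction k with
  | zero => simp [Hs]
  | succ k ih =>
    unfold Hs at ih ⊢
    rw [sum_range_succ, ih, Finset.sum_Icc_succ_top (by omega)]

lemma sum_cw (b : ℕ) (hb : 2 ≤ b) : ∑ s ∈ range b, cw b s ≤ b * (3 + Real.log b) := by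
  have hbr : (2 : ℝ) ≤ b := by exact_mod_cast hb
  have hb0 : (0 : ℝ) < b := by linarith
  unfold cw
  rw [sum_add_distrib, sum_add_distrib, ← mul_sum, sum_add_distrib]
  have h1 : ∑ s ∈ range b, (if s = 0 then (b : ℝ) else 0) = b := by
    rw [sum_ite_eq', if_pos (mem_range.2 (by omega))]
  have h2 : ∑ s ∈ range b, (if s = b - 1 then (b : ℝ) else 0) = b := by
    rw [sum_ite_eq', if_pos (mem_range.2 (by omega))]
  have h3 : ∑ s ∈ range b, 1 / (s : ℝ) = Hs (b - 1) := by
    obtain ⟨k, rfl⟩ : ∃ k, b = k + 1 := ⟨b - 1, by omega⟩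
    rw [sum_range_succ', Nat.add_sub_cancel]
    simp only [Nat.cast_zero, div_zero, add_zero]
    exact sum_range_inv k
  have h4 : ∑ s ∈ range b, 1 / ((b - 1 - s : ℕ) : ℝ) = Hs (b - 1) := by
    rw [← h3]
    exact sum_range_reflect (fun s => 1 / (s : ℝ)) b
  have h5 : Hs (b - 1) ≤ 1 + Real.log b := by
    refine (Hs_le (b - 1)).trans ?_
    have h6 : Real.log ((b - 1 : ℕ) : ℝ) ≤ Real.log b := by
      apply Real.log_le_log
      · exact_mod_cast (by omega : 0 < b - 1)
      · exact_mod_cast (by omega : b - 1 ≤ b)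
    linarith
  rw [h1, h2, h3, h4]
  nlinarith

lemma rev_low (b L : ℕ) (hb : 0 < b) (n d : ℕ) (hd : d < b) :
    rev b (L + 1) (n * b + d) = d * b ^ L + rev b L n := by
  unfold rev
  rw [sum_range_succ', add_comm]
  congr 1
  · have h0 : (n * b + d) % b = d := by
      rw [Nat.mul_comm, Nat.mul_add_mod, Nat.mod_eq_of_lt hd]
    rw [pow_zero, Nat.div_one, h0]
    congr 1
  · apply sum_congr rfl
    intro i hi
    rw [mem_range] at hi
    have h1 : (n * b + d) / b ^ (i + 1) = n / b ^ i := by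
      rw [pow_succ', ← Nat.div_div_eq_div_mul, Nat.mul_comm, Nat.mul_add_div hb,
        Nat.div_eq_of_lt hd, Nat.add_zero]
    have h2 : L + 1 - 1 - (i + 1) = L - 1 - i := by omega
    rw [h1, h2]

lemma Psi_low (b L : ℕ) (hb : 0 < b) (θ α : ℝ) :
    Psi b (L + 1) θ α = Db b (θ + α * (b : ℝ) ^ L) * Psi b L (b * θ) α := by
  unfold Psi Db
  rw [pow_succ, sum_range_mul', mul_comm, sum_mul]
  apply sum_congr rfl
  intro n _
  rw [mul_sum]
  apply sum_congr rfl
  intro d hd
  rw [mem_range] at hd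
  rw [rev_low b L hb n d hd, ← e_add]
  congr 1
  push_cast
  ring

lemma sum_const_of_pair {M : Type*} [AddCommMonoid M] (q : ℤ) (v : M) :
    ∑ _m ∈ ({q, q + 1} : Finset ℤ), v = v + v := by
  rw [sum_pair (by omega)]

/-- the sum over the cells -/
noncomputable def rho (b : ℕ) : ℝ := 2 * ∑ s ∈ range b, cw b s

lemma rho_nonneg (b : ℕ) : 0 ≤ rho b := by
  unfold rho
  exact mul_nonneg (by norm_num) (sum_nonneg fun s _ => cw_nonneg b s)

lemma rho_le (b : ℕ) (hb : 2 ≤ b) : rho b ≤ b * (6 + 2 * Real.log b) := by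
  unfold rho
  have := sum_cw b hb
  linarith

theorem sup_bound (b : ℕ) (hb : 2 ≤ b) (L : ℕ) (j : ℕ) : ∀ (α y : ℝ) (F : Finset ℝ),
    (∀ x ∈ F, y ≤ x ∧ x < y + 1) →
    (∀ x ∈ F, ∀ x' ∈ F, x ≠ x' → 1 / (b : ℝ) ^ j ≤ |x - x'|) →
    ∑ x ∈ F, ‖Psi b (L + j) x α‖ ≤ rho b ^ j * (b : ℝ) ^ L := by
  have hbr : (2 : ℝ) ≤ b := by exact_mod_cast hb
  have hb0 : (0 : ℝ) < b := by linarith
  induction j with
  | zero =>
    intro α y F hF hsep
    have hcard : F.card ≤ 1 := by
      rw [card_le_one]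
      intro x hx x' hx'
      by_contra hne
      have h1 := hsep x hx x' hx' hne
      have h2 := hF x hx
      have h3 := hF x' hx'
      rw [pow_zero, div_one] at h1
      have h4 : |x - x'| < 1 := by
        rw [abs_lt]
        constructor <;> linarith
      linarith
    have h1 : ∀ x ∈ F, ‖Psi b (L + 0) x α‖ ≤ (b : ℝ) ^ L := by
      intro x _
      unfold Psi
      refine (norm_sum_le _ _).trans ?_
      simp [norm_e]
    calc ∑ x ∈ F, ‖Psi b (L + 0) x α‖ ≤ ∑ x ∈ F, (b : ℝ) ^ L := sum_le_sum h1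
      _ = F.card * (b : ℝ) ^ L := by rw [sum_const, nsmul_eq_mul]
      _ ≤ 1 * (b : ℝ) ^ L := by
          apply mul_le_mul_of_nonneg_right _ (by positivity)
          exact_mod_cast hcard
      _ = _ := by rw [pow_zero]
  | succ j ih =>
    intro α y F hF hsep
    classical
    set c : ℝ := α * (b : ℝ) ^ (L + j) with hc
    set q : ℤ := ⌊y + c⌋ with hq
    set g : ℝ → ℤ × ℕ := fun x => (⌊x + c⌋, ⌊(b : ℝ) * Int.fract (x + c)⌋₊) with hg
    have hgr : ∀ x ∈ F, g x ∈ ({q, q + 1} : Finset ℤ) ×ˢ range b := by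
      intro x hx
      have h1 := hF x hx
      rw [mem_product]
      constructor
      · have h2 : q ≤ ⌊x + c⌋ := Int.floor_le_floor (by linarith)
        have h3 : ⌊x + c⌋ ≤ q + 1 := by
          have : ⌊x + c⌋ ≤ ⌊y + c + 1⌋ := Int.floor_le_floor (by linarith)
          rwa [Int.floor_add_one] at this
        simp only [hg, mem_insert, mem_singleton]
        omega
      · simp only [hg, mem_range]
        rw [Nat.floor_lt (mul_nonneg hb0.le (Int.fract_nonneg _))]
        have := Int.fract_lt_one (x + c)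
        nlinarith
    rw [← sum_fiberwise_of_maps_to hgr]
    have hcell : ∀ p ∈ ({q, q + 1} : Finset ℤ) ×ˢ range b,
        ∑ x ∈ F with g x = p, ‖Psi b (L + (j + 1)) x α‖ ≤ cw b p.2 * (rho b ^ j * (b : ℝ) ^ L) := by
      rintro ⟨m, s⟩ _
      set G : Finset ℝ := (F.filter (fun x => g x = (m, s))).image (fun x : ℝ => (b : ℝ) * x) with hG
      have hinj : Set.InjOn (fun x : ℝ => (b : ℝ) * x) (F.filter (fun x => g x = (m, s))) := by
        intro x _ y _ hxy
        exact mul_left_cancel₀ hb0.ne' hxy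
      have hIH := ih α (b * (m - c) + s) G (by
        intro z hz
        rw [hG, mem_image] at hz
        obtain ⟨x, hx, rfl⟩ := hz
        rw [mem_filter] at hx
        have h1 := hx.2
        simp only [hg, Prod.mk.injEq] at h1
        obtain ⟨h1, h2⟩ := h1
        have h3 : x + c = m + Int.fract (x + c) := by
          rw [← h1]; exact (Int.floor_add_fract _).symm
        have h4 : (s : ℝ) ≤ b * Int.fract (x + c) := by
          rw [← h2]; exact Nat.floor_le (mul_nonneg hb0.le (Int.fract_nonneg _))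
        have h5 : b * Int.fract (x + c) < s + 1 := by
          rw [← h2]; exact Nat.lt_floor_add_one _
        have h6 : b * x = b * (m - c) + b * Int.fract (x + c) := by
          rw [← mul_add]; congr 1; linarith
        rw [h6]
        constructor <;> linarith) (by
        intro z hz z' hz' hne
        rw [hG, mem_image] at hz hz'
        obtain ⟨x, hx, rfl⟩ := hz
        obtain ⟨x', hx', rfl⟩ := hz'
        rw [mem_filter] at hx hx'
        have hxx : x ≠ x' := by rintro rfl; exact hne rfl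
        have h1 := hsep x hx.1 x' hx'.1 hxx
        rw [← mul_sub, abs_mul, abs_of_pos hb0]
        calc 1 / (b : ℝ) ^ j = b * (1 / (b : ℝ) ^ (j + 1)) := by
              rw [pow_succ]; field_simp
          _ ≤ _ := mul_le_mul_of_nonneg_left h1 hb0.le)
      have hGsum : ∑ z ∈ G, ‖Psi b (L + j) z α‖ =
          ∑ x ∈ F.filter (fun x => g x = (m, s)), ‖Psi b (L + j) (b * x) α‖ := by
        rw [hG, sum_image hinj]
      rw [hGsum] at hIH
      calc ∑ x ∈ F with g x = (m, s), ‖Psi b (L + (j + 1)) x α‖ ≤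
          ∑ x ∈ F with g x = (m, s), cw b s * ‖Psi b (L + j) (b * x) α‖ := by
            apply sum_le_sum
            intro x hx
            rw [mem_filter] at hx
            have h1 := hx.2
            simp only [hg, Prod.mk.injEq] at h1
            rw [← add_assoc, Psi_low b (L + j) (by omega), norm_mul]
            apply mul_le_mul_of_nonneg_right _ (norm_nonneg _)
            have h2 := cell_Db b hb (x + c)
            rw [h1.2] at h2
            exact h2
        _ = cw b s * ∑ x ∈ F with g x = (m, s), ‖Psi b (L + j) (b * x) α‖ := by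
            rw [mul_sum]
        _ ≤ _ := mul_le_mul_of_nonneg_left hIH (cw_nonneg b s)
    refine (sum_le_sum hcell).trans ?_
    rw [sum_product]
    change ∑ _x ∈ ({q, q + 1} : Finset ℤ), ∑ y ∈ range b, cw b y * (rho b ^ j * (b : ℝ) ^ L) ≤ _
    rw [sum_const_of_pair q]
    apply le_of_eq
    rw [← sum_mul]
    unfold rho
    ring

end Pool.Agent.R482.KB
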