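import Pool.Agent.R482.KB.Ker

/-! The fourth moment of a combination of the exponential sums at well spaced fractions. -/

set_option autoImplicit false

namespace Pool.Agent.R482.KB
open Finset
open Pool.Agent.R456.RP

lemma norm_sq_cast (z : ℂ) : ((‖z‖ ^ 2 : ℝ) : ℂ) = z * (starRingEnd ℂ) z := by
  rw [Complex.mul_conj, Complex.normSq_eq_norm_sq]

lemma parseval (X : ℕ) (hX : 0 < X) (t : ℕ → ℕ) (ht : ∀ n < X, t n < X)
    (hinj : ∀ n < X, ∀ m < X, t n = t m → n = m) (w : ℕ → ℂ) :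
    ∑ k ∈ range X, ‖∑ n ∈ range X, w n * e ((k : ℝ) / X * t n)‖ ^ 2 =
      X * ∑ n ∈ range X, ‖w n‖ ^ 2 := by
  have h1 : ∀ k ∈ range X, ((‖∑ n ∈ range X, w n * e ((k : ℝ) / X * t n)‖ ^ 2 : ℝ) : ℂ) =
      ∑ n ∈ range X, ∑ m ∈ range X, w n * (starRingEnd ℂ) (w m) *
        e ((((t n : ℤ) - t m : ℤ) : ℝ) * (k / X)) := by
    intro k _
    rw [norm_sq_cast, map_sum, sum_mul_sum]
    apply sum_congr rfl
    intro n _
    apply sum_congr rfl
    intro m _
    rw [map_mul, e_conj]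
    have h2 : e ((((t n : ℤ) - t m : ℤ) : ℝ) * (k / X)) =
        e ((k : ℝ) / X * t n) * e (-((k : ℝ) / X * t m)) := by
      rw [← e_add]
      congr 1
      push_cast
      ring
    rw [h2]
    ring
  have h2 : ((∑ k ∈ range X, ‖∑ n ∈ range X, w n * e ((k : ℝ) / X * t n)‖ ^ 2 : ℝ) : ℂ) =
      ((X * ∑ n ∈ range X, ‖w n‖ ^ 2 : ℝ) : ℂ) := by
    rw [Complex.ofReal_sum, sum_congr rfl h1, sum_comm, Complex.ofReal_mul, Complex.ofReal_sum,
      mul_sum]
    apply sum_congr rfl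
    intro n hn
    rw [mem_range] at hn
    rw [sum_comm]
    have h3 : ∀ m ∈ range X, ∑ k ∈ range X, w n * (starRingEnd ℂ) (w m) *
        e ((((t n : ℤ) - t m : ℤ) : ℝ) * (k / X)) =
        if m = n then (X : ℂ) * ((‖w n‖ ^ 2 : ℝ) : ℂ) else 0 := by
      intro m hm
      rw [mem_range] at hm
      rw [← mul_sum, sum_e X hX]
      by_cases hmn : m = n
      · subst hmn
        rw [if_pos (by simp), if_pos rfl, norm_sq_cast]
        ring
      · rw [if_neg hmn, if_neg, mul_zero]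
        intro hdvd
        apply hmn
        have h4 := ht n hn
        have h5 := ht m hm
        have h6 := Int.eq_zero_of_abs_lt_dvd hdvd (by rw [abs_lt]; omega)
        exact (hinj n hn m hm (by omega)).symm
    rw [sum_congr rfl h3, sum_ite_eq', if_pos (mem_range.2 hn)]
    rfl
  exact_mod_cast h2

/-- the dual large sieve in a crude form -/
lemma dual {ι : Type*} [DecidableEq ι] (X : ℕ) (P : Finset ι) (θ : ι → ℝ) (c : ι → ℝ) (M K : ℝ)
    (hM : 0 ≤ M) (hc : ∀ p ∈ P, |c p| ≤ M)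
    (hK : ∀ p ∈ P, ∀ p' ∈ P, p ≠ p' → ‖Db X (θ p - θ p')‖ ≤ K) (hK0 : 0 ≤ K) :
    ∑ n ∈ range X, ‖∑ p ∈ P, (c p : ℂ) * e (θ p * n)‖ ^ 2 ≤
      M ^ 2 * (P.card * X + (P.card : ℝ) ^ 2 * K) := by
  have h1 : ((∑ n ∈ range X, ‖∑ p ∈ P, (c p : ℂ) * e (θ p * n)‖ ^ 2 : ℝ) : ℂ) =
      ∑ p ∈ P, ∑ p' ∈ P, ((c p : ℂ) * c p') * Db X (θ p - θ p') := by
    rw [Complex.ofReal_sum]
    have h2 : ∀ n ∈ range X, ((‖∑ p ∈ P, (c p : ℂ) * e (θ p * n)‖ ^ 2 : ℝ) : ℂ) =
        ∑ p ∈ P, ∑ p' ∈ P, ((c p : ℂ) * c p') * e ((θ p - θ p') * n) := by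
      intro n _
      rw [norm_sq_cast, map_sum, sum_mul_sum]
      apply sum_congr rfl
      intro p _
      apply sum_congr rfl
      intro p' _
      rw [map_mul, e_conj, Complex.conj_ofReal]
      have h3 : e ((θ p - θ p') * n) = e (θ p * n) * e (-(θ p' * n)) := by
        rw [← e_add]; congr 1; ring
      rw [h3]
      ring
    rw [sum_congr rfl h2, sum_comm]
    apply sum_congr rfl
    intro p _
    rw [sum_comm]
    apply sum_congr rfl
    intro p' _
    unfold Db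
    rw [mul_sum]
  have h2 : (∑ n ∈ range X, ‖∑ p ∈ P, (c p : ℂ) * e (θ p * n)‖ ^ 2 : ℝ) =
      ‖∑ p ∈ P, ∑ p' ∈ P, ((c p : ℂ) * c p') * Db X (θ p - θ p')‖ := by
    rw [← h1, Complex.norm_real, Real.norm_of_nonneg]
    exact sum_nonneg fun _ _ => by positivity
  rw [h2]
  calc ‖∑ p ∈ P, ∑ p' ∈ P, ((c p : ℂ) * c p') * Db X (θ p - θ p')‖ ≤
      ∑ p ∈ P, ∑ p' ∈ P, M ^ 2 * ((if p = p' then (X : ℝ) else 0) + K) := by
        refine (norm_sum_le _ _).trans (sum_le_sum fun p hp => ?_)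
        refine (norm_sum_le _ _).trans (sum_le_sum fun p' hp' => ?_)
        rw [norm_mul, norm_mul, Complex.norm_real, Complex.norm_real, Real.norm_eq_abs,
          Real.norm_eq_abs]
        have h3 : |c p| * |c p'| ≤ M ^ 2 := by
          rw [sq]
          exact mul_le_mul (hc p hp) (hc p' hp') (abs_nonneg _) hM
        have h4 : ‖Db X (θ p - θ p')‖ ≤ (if p = p' then (X : ℝ) else 0) + K := by
          split_ifs with h5
          · have := norm_Db_le X (θ p - θ p')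
            linarith
          · rw [zero_add]
            exact hK p hp p' hp' h5
        exact mul_le_mul h3 h4 (norm_nonneg _) (by positivity)
    _ = _ := by
        have h5 : ∀ p ∈ P, ∑ p' ∈ P, M ^ 2 * ((if p = p' then (X : ℝ) else 0) + K) =
            M ^ 2 * (X + P.card * K) := by
          intro p hp
          rw [← mul_sum, sum_add_distrib, sum_ite_eq, if_pos hp, sum_const, nsmul_eq_mul]
        rw [sum_congr rfl h5, sum_const, nsmul_eq_mul]
        ring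

/-- the point attached to a pair -/
noncomputable def pt (p : Σ _ : ℕ, ℕ) : ℝ := (p.2 : ℝ) / p.1

lemma sep_pairs (D : ℕ) (Q : Finset ℕ) (hQ : ∀ q ∈ Q, 1 < q ∧ q ≤ D) :
    ∀ p ∈ Q.sigma (fun q => Un q), ∀ p' ∈ Q.sigma (fun q => Un q), p ≠ p' →
      1 / (D : ℝ) ^ 2 ≤ dn (pt p - pt p') := by
  intro p hp p' hp' hne
  have hmem : ∀ p ∈ Q.sigma (fun q => Un q), 1 < p.1 ∧ p.1 ≤ D ∧ p.2 < p.1 ∧
      Nat.Coprime p.2 p.1 := by
    intro p hp
    rw [mem_sigma] at hp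
    obtain ⟨h1, h2⟩ := hp
    simp only [Un, mem_filter, mem_range] at h2
    exact ⟨(hQ _ h1).1, (hQ _ h1).2, h2.1, h2.2⟩
  obtain ⟨h1, h2, h3, h4⟩ := hmem p hp
  obtain ⟨h1', h2', h3', h4'⟩ := hmem p' hp'
  have hq : (0 : ℝ) < p.1 := by exact_mod_cast (by omega : 0 < p.1)
  have hq' : (0 : ℝ) < p'.1 := by exact_mod_cast (by omega : 0 < p'.1)
  apply le_dn
  intro k
  have h5 : pt p - pt p' - k =
      ((((p.2 * p'.1 : ℕ) : ℤ) - ((p'.2 * p.1 : ℕ) : ℤ) - k * (p.1 * p'.1 : ℕ) : ℤ) : ℝ) /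
        (p.1 * p'.1) := by
    unfold pt
    push_cast
    field_simp
  have hz : ((p.2 * p'.1 : ℕ) : ℤ) - ((p'.2 * p.1 : ℕ) : ℤ) - k * (p.1 * p'.1 : ℕ) ≠ 0 := by
    intro h6
    have hk : k = 0 := by
      have h7 : pt p - pt p' = k := by
        rw [h6] at h5
        simp only [Int.cast_zero, zero_div] at h5
        linarith
      have h8 : pt p < 1 := by
        unfold pt
        rw [div_lt_one hq]
        exact_mod_cast h3
      have h9 : pt p' < 1 := by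
        unfold pt
        rw [div_lt_one hq']
        exact_mod_cast h3'
      have h10 : 0 ≤ pt p := by unfold pt; positivity
      have h11 : 0 ≤ pt p' := by unfold pt; positivity
      have h12 : (k : ℝ) < 1 := by linarith
      have h13 : (-1 : ℝ) < k := by linarith
      have h14 : k < 1 := by exact_mod_cast h12
      have h15 : -1 < k := by exact_mod_cast h13
      omega
    rw [hk, zero_mul, sub_zero] at h6
    apply hne
    have h7 : p.2 * p'.1 = p'.2 * p.1 := by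
      have := sub_eq_zero.1 h6
      exact_mod_cast this
    have h8 : p.1 ∣ p'.1 := by
      have : p.1 ∣ p.2 * p'.1 := by rw [h7]; exact dvd_mul_left _ _
      exact Nat.Coprime.dvd_of_dvd_mul_left h4.symm this
    have h9 : p'.1 ∣ p.1 := by
      have : p'.1 ∣ p'.2 * p.1 := by rw [← h7]; exact dvd_mul_left _ _
      exact Nat.Coprime.dvd_of_dvd_mul_left h4'.symm this
    have h10 : p.1 = p'.1 := Nat.dvd_antisymm h8 h9
    have h11 : p.2 = p'.2 := by
      rw [h10] at h7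
      exact Nat.eq_of_mul_eq_mul_right (by omega) h7
    rcases p with ⟨u, v⟩
    rcases p' with ⟨u', v'⟩
    simp only at h10 h11
    subst h10 h11
    rfl
  rw [h5, abs_div, abs_of_pos (mul_pos hq hq')]
  have h6 : (1 : ℝ) ≤ |((((p.2 * p'.1 : ℕ) : ℤ) - ((p'.2 * p.1 : ℕ) : ℤ) -
      k * (p.1 * p'.1 : ℕ) : ℤ) : ℝ)| := by
    exact_mod_cast Int.one_le_abs hz
  have h7 : (p.1 : ℝ) * p'.1 ≤ (D : ℝ) ^ 2 := by
    have h8 : (p.1 : ℝ) ≤ (D : ℝ) := by exact_mod_cast h2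
    have h9 : (p'.1 : ℝ) ≤ (D : ℝ) := by exact_mod_cast h2'
    rw [sq]
    exact mul_le_mul h8 h9 hq'.le (by positivity)
  exact div_le_div₀ (by positivity) h6 (mul_pos hq hq') h7

lemma card_pairs (D : ℕ) (Q : Finset ℕ) (hQ : ∀ q ∈ Q, 1 < q ∧ q ≤ D) :
    (Q.sigma (fun q => Un q)).card ≤ D ^ 2 := by
  rw [card_sigma]
  have h1 : ∀ q ∈ Q, (Un q).card ≤ D := by
    intro q hq
    unfold Un
    refine (card_filter_le _ _).trans ?_
    rw [card_range]
    exact (hQ q hq).2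
  have h2 : Q.card ≤ D := by
    have : Q ⊆ Icc 1 D := by
      intro q hq
      have := hQ q hq
      rw [mem_Icc]
      omega
    have := card_le_card this
    rwa [Nat.card_Icc, Nat.add_sub_cancel] at this
  calc ∑ q ∈ Q, (Un q).card ≤ ∑ q ∈ Q, D := sum_le_sum h1
    _ = Q.card * D := by rw [sum_const, smul_eq_mul]
    _ ≤ D * D := Nat.mul_le_mul_right _ h2
    _ = D ^ 2 := (sq D).symm

/-- The fourth moment of the combination over the denominators at most `b ^ (2 t)`. -/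
theorem block_large (b L t : ℕ) (hb : 2 ≤ b) (htL : 8 * t ≤ L) (M : ℝ) (hM : 0 ≤ M) (Q : Finset ℕ)
    (hQ : ∀ q ∈ Q, 1 < q ∧ q ≤ b ^ (2 * t)) (c : ℕ → ℝ) (hc : ∀ q ∈ Q, |c q| ≤ M) :
    ‖vec (b ^ L) (fun α => ∑ q ∈ Q, (c q : ℂ) * ∑ a ∈ Un q, Psi b L ((a : ℝ) / q) α)‖ ^ 4 ≤
      2 * M ^ 4 * (rho b / b) ^ (8 * t) * (b : ℝ) ^ (4 * t) * ((b : ℝ) ^ L) ^ 4 := by
  classical
  have hbr : (2 : ℝ) ≤ b := by exact_mod_cast hb
  have hb0 : (0 : ℝ) < b := by linarith
  set X := b ^ L with hX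
  have hX0 : 0 < X := by positivity
  have hXr : ((X : ℕ) : ℝ) = (b : ℝ) ^ L := by rw [hX]; push_cast; rfl
  set D := b ^ (2 * t) with hD
  have hD0 : 0 < D := by positivity
  have hDr : ((D : ℕ) : ℝ) = (b : ℝ) ^ (2 * t) := by rw [hD]; push_cast; rfl
  set P := Q.sigma (fun q => Un q) with hP
  have hsep := sep_pairs D Q hQ
  have hcardP : (P.card : ℝ) ≤ (D : ℝ) ^ 2 := by
    have := card_pairs D Q hQ
    exact_mod_cast this
  have hcP : ∀ p ∈ P, |c p.1| ≤ M := by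
    intro p hp
    rw [hP, mem_sigma] at hp
    exact hc p.1 hp.1
  have hD2 : (0 : ℝ) < 1 / (D : ℝ) ^ 2 := by positivity
  have hinj : Set.InjOn pt P := by
    intro p hp p' hp' h
    by_contra hne
    have h1 := hsep p hp p' hp' hne
    rw [h, sub_self] at h1
    have h2 : dn 0 ≤ 0 := by
      have := dn_le 0 0
      simpa using this
    linarith
  -- rewriting the combination
  have hG : ∀ α : ℝ, ∑ q ∈ Q, (c q : ℂ) * ∑ a ∈ Un q, Psi b L ((a : ℝ) / q) α =
      ∑ p ∈ P, (c p.1 : ℂ) * Psi b L (pt p) α := by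
    intro α
    rw [hP, sum_sigma]
    apply sum_congr rfl
    intro q _
    rw [mul_sum]
    rfl
  -- the supremum
  have hsup : ∀ α : ℝ, ‖∑ p ∈ P, (c p.1 : ℂ) * Psi b L (pt p) α‖ ≤
      M * ((rho b / b) ^ (4 * t) * (b : ℝ) ^ L) := by
    intro α
    set F := P.image pt with hF
    have h1 : ∑ x ∈ F, ‖Psi b L x α‖ ≤ rho b ^ (4 * t) * (b : ℝ) ^ (L - 4 * t) := by
      have h2 := sup_bound b hb (L - 4 * t) (4 * t) α 0 F (by
        intro x hx
        rw [hF, mem_image] at hx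
        obtain ⟨p, hp, rfl⟩ := hx
        rw [hP, mem_sigma] at hp
        obtain ⟨h1, h2⟩ := hp
        simp only [Un, mem_filter, mem_range] at h2
        have hq : (0 : ℝ) < p.1 := by exact_mod_cast (by omega : 0 < p.1)
        unfold pt
        rw [zero_add]
        refine ⟨by positivity, ?_⟩
        rw [div_lt_one hq]
        exact_mod_cast h2.1) (by
        intro x hx x' hx' hne
        rw [hF, mem_image] at hx hx'
        obtain ⟨p, hp, rfl⟩ := hx
        obtain ⟨p', hp', rfl⟩ := hx'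
        have h3 := hsep p hp p' hp' (by rintro rfl; exact hne rfl)
        have h4 := dn_le (pt p - pt p') 0
        rw [Int.cast_zero, sub_zero] at h4
        refine le_trans (le_of_eq ?_) (h3.trans h4)
        rw [hDr, ← pow_mul]
        congr 2
        ring)
      have h3 : L - 4 * t + 4 * t = L := by omega
      rwa [h3] at h2
    have h4 : ∑ p ∈ P, ‖Psi b L (pt p) α‖ = ∑ x ∈ F, ‖Psi b L x α‖ := by
      rw [hF, sum_image hinj]
    calc ‖∑ p ∈ P, (c p.1 : ℂ) * Psi b L (pt p) α‖ ≤ ∑ p ∈ P, M * ‖Psi b L (pt p) α‖ := by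
          refine (norm_sum_le _ _).trans (sum_le_sum fun p hp => ?_)
          rw [norm_mul, Complex.norm_real, Real.norm_eq_abs]
          exact mul_le_mul_of_nonneg_right (hcP p hp) (norm_nonneg _)
      _ = M * ∑ x ∈ F, ‖Psi b L x α‖ := by rw [← mul_sum, h4]
      _ ≤ M * (rho b ^ (4 * t) * (b : ℝ) ^ (L - 4 * t)) := mul_le_mul_of_nonneg_left h1 hM
      _ = _ := by
          congr 1
          have h5 : (b : ℝ) ^ L = (b : ℝ) ^ (4 * t) * (b : ℝ) ^ (L - 4 * t) := by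
            rw [← pow_add]; congr 1; omega
          rw [h5, div_pow]
          field_simp
  -- the second moment
  have hsq : ∑ k ∈ range X, ‖∑ p ∈ P, (c p.1 : ℂ) * Psi b L (pt p) ((k : ℝ) / X)‖ ^ 2 ≤
      X * (M ^ 2 * (2 * (b : ℝ) ^ (4 * t) * (b : ℝ) ^ L)) := by
    have h1 : ∀ k ∈ range X, ‖∑ p ∈ P, (c p.1 : ℂ) * Psi b L (pt p) ((k : ℝ) / X)‖ ^ 2 =
        ‖∑ n ∈ range X, (∑ p ∈ P, (c p.1 : ℂ) * e (pt p * n)) *
          e ((k : ℝ) / X * rev b L n)‖ ^ 2 := by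
      intro k _
      congr 2
      unfold Psi
      simp_rw [mul_sum, sum_mul]
      rw [sum_comm]
      apply sum_congr rfl
      intro n _
      apply sum_congr rfl
      intro p _
      rw [e_add]
      ring
    rw [sum_congr rfl h1, parseval X hX0 (rev b L) (rev_lt b L (by omega))
      (rev_inj b L (by omega))]
    apply mul_le_mul_of_nonneg_left _ (Nat.cast_nonneg _)
    have h2 := dual X P pt (fun p => c p.1) M (2 / (4 * (1 / (D : ℝ) ^ 2))) hM hcP (by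
      intro p hp p' hp' hne
      rw [le_div_iff₀ (by positivity)]
      refine le_trans ?_ (norm_Db_mul X (pt p - pt p'))
      apply mul_le_mul_of_nonneg_left _ (norm_nonneg _)
      have := hsep p hp p' hp' hne
      linarith) (by positivity)
    refine h2.trans ?_
    apply mul_le_mul_of_nonneg_left _ (by positivity)
    have h3 : 2 / (4 * (1 / (D : ℝ) ^ 2)) = (D : ℝ) ^ 2 / 2 := by field_simp; norm_num
    have h4 : (D : ℝ) ^ 2 = (b : ℝ) ^ (4 * t) := by
      rw [hDr, ← pow_mul]; congr 1; ring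
    have h5 : (b : ℝ) ^ (4 * t) * (b : ℝ) ^ (4 * t) ≤ (b : ℝ) ^ L := by
      rw [← pow_add]
      exact pow_le_pow_right₀ (by linarith) (by omega)
    rw [h3, h4, hXr]
    rw [h4] at hcardP
    have h6 : (0 : ℝ) ≤ P.card := Nat.cast_nonneg _
    have h7 : (P.card : ℝ) ^ 2 ≤ ((b : ℝ) ^ (4 * t)) ^ 2 := pow_le_pow_left₀ h6 hcardP 2
    set Y := (b : ℝ) ^ (4 * t) with hY
    have hY0 : 0 < Y := by positivity
    have hX1 : 0 < (b : ℝ) ^ L := by positivity
    calc (P.card : ℝ) * (b : ℝ) ^ L + (P.card : ℝ) ^ 2 * (Y / 2) ≤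
        Y * (b : ℝ) ^ L + Y ^ 2 * (Y / 2) := by
          gcongr
      _ ≤ Y * (b : ℝ) ^ L + (b : ℝ) ^ L * (Y / 2) := by
          have : Y ^ 2 ≤ (b : ℝ) ^ L := by rw [sq]; exact h5
          gcongr
      _ ≤ _ := by nlinarith
  -- the fourth moment
  rw [vec_norm]
  have h4 : ∀ k ∈ range X,
      ‖∑ q ∈ Q, (c q : ℂ) * ∑ a ∈ Un q, Psi b L ((a : ℝ) / q) ((k : ℝ) / X)‖ ^ 4 ≤
      (M * ((rho b / b) ^ (4 * t) * (b : ℝ) ^ L)) ^ 2 *
        ‖∑ p ∈ P, (c p.1 : ℂ) * Psi b L (pt p) ((k : ℝ) / X)‖ ^ 2 := by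
    intro k _
    rw [hG]
    set z := ‖∑ p ∈ P, (c p.1 : ℂ) * Psi b L (pt p) ((k : ℝ) / X)‖ with hz
    have h5 : z ^ 4 = z ^ 2 * z ^ 2 := by ring
    rw [h5]
    apply mul_le_mul_of_nonneg_right _ (by positivity)
    exact pow_le_pow_left₀ (norm_nonneg _) (hsup _) 2
  calc ∑ k ∈ range X, ‖∑ q ∈ Q, (c q : ℂ) * ∑ a ∈ Un q, Psi b L ((a : ℝ) / q) ((k : ℝ) / X)‖ ^ 4 ≤
      ∑ k ∈ range X, (M * ((rho b / b) ^ (4 * t) * (b : ℝ) ^ L)) ^ 2 *
        ‖∑ p ∈ P, (c p.1 : ℂ) * Psi b L (pt p) ((k : ℝ) / X)‖ ^ 2 := sum_le_sum h4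
    _ = (M * ((rho b / b) ^ (4 * t) * (b : ℝ) ^ L)) ^ 2 * ∑ k ∈ range X,
        ‖∑ p ∈ P, (c p.1 : ℂ) * Psi b L (pt p) ((k : ℝ) / X)‖ ^ 2 := by rw [← mul_sum]
    _ ≤ (M * ((rho b / b) ^ (4 * t) * (b : ℝ) ^ L)) ^ 2 *
        (X * (M ^ 2 * (2 * (b : ℝ) ^ (4 * t) * (b : ℝ) ^ L))) :=
        mul_le_mul_of_nonneg_left hsq (by positivity)
    _ = _ := by
        rw [hXr]
        have : (rho b / b) ^ (8 * t) = ((rho b / b) ^ (4 * t)) ^ 2 := by
          rw [← pow_mul]; congr 1; ring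
        rw [this]
        ring

end Pool.Agent.R482.KB
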