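import Pool.Agent.R482.KB.Reg
import Pool.Agent.R456.RP.Est

/-! The exponential sum with the majorant of level `b ^ (L / 8)`. -/

set_option autoImplicit false

namespace Pool.Agent.R482.KB
open Finset
open Pool.Agent.R456.RP
open Pool.Agent.Helper923.PPS

lemma coef_le (b : ℕ) (hb : 2 ≤ b) (C : ℕ) (hC1 : 1 ≤ C)
    (hC : ∀ n : ℕ, n ≠ 0 → (n.divisors.card) ^ 8 ≤ C * n) (t : ℕ) (ht : 1 ≤ t) (r : ℕ)
    (h1 : 2 ≤ r) (h3 : (b ^ 2) ^ (t - 1) < r) (h4 : r ≤ (b ^ 2) ^ t) :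
    tt r ^ 2 / r ≤ C * (b : ℝ) ^ 2 * (Real.sqrt b ^ (3 * t))⁻¹ := by
  have hbr : (2 : ℝ) ≤ b := by exact_mod_cast hb
  have hb0 : (0 : ℝ) < b := by linarith
  set β : ℝ := Real.sqrt b with hβ
  have hβ0 : 0 < β := Real.sqrt_pos.2 hb0
  have hβ2 : β ^ 2 = b := Real.sq_sqrt hb0.le
  have hβ4 : β ^ 4 = (b : ℝ) ^ 2 := by
    calc β ^ 4 = (β ^ 2) ^ 2 := by ring
      _ = _ := by rw [hβ2]
  set B := b ^ 2 with hB
  have hBr : (B : ℝ) = (b : ℝ) ^ 2 := by rw [hB]; push_cast; rfl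
  have h5 := tt_pow C hC r (by omega)
  have h6 : (tt r ^ 2) ^ 4 ≤ (C * β ^ t) ^ 4 := by
    have h7 : (r : ℝ) ≤ β ^ (4 * t) := by
      rw [pow_mul, hβ4, ← hBr]
      exact_mod_cast h4
    have h8 : (1 : ℝ) ≤ C := by exact_mod_cast hC1
    calc (tt r ^ 2) ^ 4 = tt r ^ 8 := by ring
      _ ≤ (C : ℝ) * (r : ℝ) := h5
      _ ≤ (C : ℝ) * β ^ (4 * t) := mul_le_mul_of_nonneg_left h7 (by positivity)
      _ ≤ (C : ℝ) ^ 4 * β ^ (4 * t) := by
          apply mul_le_mul_of_nonneg_right _ (by positivity)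
          calc (C : ℝ) = (C : ℝ) ^ 1 := (pow_one _).symm
            _ ≤ (C : ℝ) ^ 4 := pow_le_pow_right₀ h8 (by norm_num)
      _ = (C * β ^ t) ^ 4 := by rw [mul_pow, ← pow_mul, mul_comm t 4]
  have h7 : tt r ^ 2 ≤ C * β ^ t :=
    le_of_pow_le_pow_left₀ (by norm_num) (by positivity) h6
  have hr0 : (0 : ℝ) < r := by exact_mod_cast (by omega : 0 < r)
  have h8 : β ^ (4 * t) ≤ (b : ℝ) ^ 2 * r := by
    have h9 : ((B ^ (t - 1) : ℕ) : ℝ) ≤ r := by exact_mod_cast h3.le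
    have h10 : β ^ (4 * t) = (b : ℝ) ^ 2 * ((B ^ (t - 1) : ℕ) : ℝ) := by
      rw [pow_mul, hβ4]
      push_cast
      rw [hBr]
      obtain ⟨k, rfl⟩ : ∃ k, t = k + 1 := ⟨t - 1, by omega⟩
      rw [Nat.add_sub_cancel, pow_succ]
      ring
    rw [h10]
    exact mul_le_mul_of_nonneg_left h9 (by positivity)
  rw [div_le_iff₀ hr0]
  calc tt r ^ 2 ≤ C * β ^ t := h7
    _ = C * β ^ (4 * t) * (β ^ (3 * t))⁻¹ := by
        have : β ^ (4 * t) = β ^ t * β ^ (3 * t) := by rw [← pow_add]; congr 1; ring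
        rw [this]
        field_simp
    _ ≤ C * ((b : ℝ) ^ 2 * r) * (β ^ (3 * t))⁻¹ := by
        gcongr
    _ = _ := by ring

/-- the large blocks -/
lemma norm_large (b : ℕ) (hb : 2 ≤ b) (hrho : (rho b / b) ^ 8 ≤ b) (C : ℕ) (hC1 : 1 ≤ C)
    (hC : ∀ n : ℕ, n ≠ 0 → (n.divisors.card) ^ 8 ≤ C * n) (L t R : ℕ) (hR : 1 ≤ R) (ht : 1 ≤ t)
    (htL : 8 * t ≤ L) (Q : Finset ℕ)
    (hQ : ∀ r ∈ Q, 2 ≤ r ∧ (b ^ 2) ^ (t - 1) < r ∧ r ≤ (b ^ 2) ^ t) :
    ‖vec (b ^ L) (fun α => ∑ r ∈ Q, (cr b R r : ℂ) * ∑ a ∈ Un r, Psi b L ((a : ℝ) / r) α)‖ ≤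
      2 * Hs (R ^ 2) ^ 4 * C * (b : ℝ) ^ 2 * (b : ℝ) ^ L * Real.exp (-(t * (Real.log b / 4))) := by
  have hbr : (2 : ℝ) ≤ b := by exact_mod_cast hb
  have hb0 : (0 : ℝ) < b := by linarith
  set β : ℝ := Real.sqrt b with hβ
  have hβ0 : 0 < β := Real.sqrt_pos.2 hb0
  have hβ2 : β ^ 2 = b := Real.sq_sqrt hb0.le
  set H := Hs (R ^ 2) with hH
  have hH0 : 0 ≤ H := Hs_nonneg _
  set M : ℝ := H ^ 4 * (C * (b : ℝ) ^ 2 * (β ^ (3 * t))⁻¹) with hM
  have hM0 : 0 ≤ M := by positivity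
  have h1 := block_large b L t hb htL M hM0 Q (by
    intro r hr
    obtain ⟨h1, h2, h3⟩ := hQ r hr
    refine ⟨by omega, ?_⟩
    rw [pow_mul]
    exact h3) (cr b R) (by
    intro r hr
    obtain ⟨h1, h2, h3⟩ := hQ r hr
    refine (abs_cr_le b R r hR (by omega)).trans ?_
    exact mul_le_mul_of_nonneg_left (coef_le b hb C hC1 hC t ht r h1 h2 h3) (by positivity))
  have hexp : Real.exp (-(t * (Real.log b / 4))) ^ 4 = ((b : ℝ) ^ t)⁻¹ := by
    rw [← Real.exp_nat_mul]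
    have : ((4 : ℕ) : ℝ) * (-(t * (Real.log b / 4))) = -(t * Real.log b) := by
      push_cast; ring
    rw [this, Real.exp_neg, Real.exp_nat_mul, Real.exp_log hb0]
  refine le_of_pow_le_pow_left₀ (n := 4) (by norm_num) (by positivity) ?_
  refine h1.trans ?_
  have hRHS : (2 * H ^ 4 * C * (b : ℝ) ^ 2 * (b : ℝ) ^ L *
      Real.exp (-(t * (Real.log b / 4)))) ^ 4 =
      16 * (H ^ 16 * C ^ 4 * (b : ℝ) ^ 8) * ((b : ℝ) ^ L) ^ 4 * ((b : ℝ) ^ t)⁻¹ := by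
    rw [← hexp]
    ring
  rw [hRHS]
  have h2 : (rho b / b) ^ (8 * t) ≤ (b : ℝ) ^ t := by
    rw [pow_mul]
    exact pow_le_pow_left₀ (pow_nonneg (div_nonneg (rho_nonneg b) hb0.le) 8) hrho t
  have h3 : M ^ 4 = H ^ 16 * C ^ 4 * (b : ℝ) ^ 8 * ((b : ℝ) ^ (6 * t))⁻¹ := by
    rw [hM]
    have h4 : ((β ^ (3 * t))⁻¹) ^ 4 = ((b : ℝ) ^ (6 * t))⁻¹ := by
      rw [inv_pow, ← pow_mul]
      have : 3 * t * 4 = 2 * (6 * t) := by ring
      rw [this, pow_mul, hβ2]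
    rw [mul_pow, mul_pow, mul_pow, h4]
    ring
  have h5 : (b : ℝ) ^ (6 * t) = (b : ℝ) ^ t * (b : ℝ) ^ t * (b : ℝ) ^ (4 * t) := by
    rw [← pow_add, ← pow_add]; congr 1; ring
  have hbt : (0 : ℝ) < (b : ℝ) ^ t := by positivity
  calc 2 * M ^ 4 * (rho b / b) ^ (8 * t) * (b : ℝ) ^ (4 * t) * ((b : ℝ) ^ L) ^ 4 ≤
      2 * M ^ 4 * (b : ℝ) ^ t * (b : ℝ) ^ (4 * t) * ((b : ℝ) ^ L) ^ 4 := by
        gcongr
    _ = 2 * (H ^ 16 * C ^ 4 * (b : ℝ) ^ 8) * ((b : ℝ) ^ L) ^ 4 * ((b : ℝ) ^ t)⁻¹ := by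
        rw [h3, h5]
        field_simp
    _ ≤ 16 * (H ^ 16 * C ^ 4 * (b : ℝ) ^ 8) * ((b : ℝ) ^ L) ^ 4 * ((b : ℝ) ^ t)⁻¹ := by
        gcongr
        norm_num

/-- the small blocks -/
lemma norm_small (b : ℕ) (hb : 2 ≤ b) (L R : ℕ) (hR : 1 ≤ R) (W : ℝ) (Q : Finset ℕ)
    (hQ : ∀ r ∈ Q, 2 ≤ r)
    (hW : ∑ r ∈ Q, tt r ^ 2 / r * ∑ a ∈ Un r,
      Real.exp (-(4 / (b : ℝ) ^ 6) * SJ (b ^ 2) (L / 2) ((a : ℝ) / r * cc b L)) ≤ W) :
    ‖vec (b ^ L) (fun α => ∑ r ∈ Q, (cr b R r : ℂ) * ∑ a ∈ Un r, Psi b L ((a : ℝ) / r) α)‖ ≤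
      Hs (R ^ 2) ^ 4 * b * (b : ℝ) ^ L * W := by
  have hb0 : (0 : ℝ) < b := by exact_mod_cast (by omega : 0 < b)
  set X := b ^ L with hX
  have h1 : vec X (fun α => ∑ r ∈ Q, (cr b R r : ℂ) * ∑ a ∈ Un r, Psi b L ((a : ℝ) / r) α) =
      ∑ r ∈ Q, (cr b R r : ℂ) • ∑ a ∈ Un r, vec X (Psi b L ((a : ℝ) / r)) := by
    rw [vec_sum]
    apply sum_congr rfl
    intro r _
    rw [vec_smul, vec_sum]
  rw [h1]
  calc ‖∑ r ∈ Q, (cr b R r : ℂ) • ∑ a ∈ Un r, vec X (Psi b L ((a : ℝ) / r))‖ ≤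
      ∑ r ∈ Q, (Hs (R ^ 2) ^ 4 * (tt r ^ 2 / r)) * ∑ a ∈ Un r, ((b : ℝ) * (b : ℝ) ^ L *
        Real.exp (-(4 / (b : ℝ) ^ 6) * SJ (b ^ 2) (L / 2) ((a : ℝ) / r * cc b L))) := by
        refine (norm_sum_le _ _).trans (sum_le_sum fun r hr => ?_)
        rw [norm_smul, Complex.norm_real, Real.norm_eq_abs]
        have h2 := abs_cr_le b R r hR (by have := hQ r hr; omega)
        have h3 : ‖∑ a ∈ Un r, vec X (Psi b L ((a : ℝ) / r))‖ ≤ ∑ a ∈ Un r, ((b : ℝ) * (b : ℝ) ^ L *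
            Real.exp (-(4 / (b : ℝ) ^ 6) * SJ (b ^ 2) (L / 2) ((a : ℝ) / r * cc b L))) := by
          refine (norm_sum_le _ _).trans (sum_le_sum fun a _ => ?_)
          exact norm_vec_Psi b L hb _
        have h4 := Hs_nonneg (R ^ 2)
        exact mul_le_mul h2 h3 (norm_nonneg _) (by positivity)
    _ = Hs (R ^ 2) ^ 4 * b * (b : ℝ) ^ L * ∑ r ∈ Q, tt r ^ 2 / r * ∑ a ∈ Un r,
        Real.exp (-(4 / (b : ℝ) ^ 6) * SJ (b ^ 2) (L / 2) ((a : ℝ) / r * cc b L)) := by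
        rw [mul_sum]
        apply sum_congr rfl
        intro r _
        rw [← mul_sum]
        ring
    _ ≤ _ := by
        apply mul_le_mul_of_nonneg_left hW
        have h4 := Hs_nonneg (R ^ 2)
        positivity

/-- The bound for the norm with the sieve of level `b ^ (L / 8)`. -/
theorem FF_bound (b : ℕ) (hb : 2 ≤ b) (hrho : (rho b / b) ^ 8 ≤ b) : ∃ K c : ℝ, 0 < K ∧ 0 < c ∧
    ∀ L : ℕ, ‖vec (b ^ L) (FF b L (b ^ (L / 8)))‖ ≤ (b : ℝ) ^ L *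
      ((selS (apSieve 0 (q0 b) 0 (b ^ (L / 8))) ((b ^ (L / 8) : ℕ) : ℝ))⁻¹ +
        K * (1 + L) ^ 5 * Real.exp (-c * Real.sqrt L)) := by
  have hbr : (2 : ℝ) ≤ b := by exact_mod_cast hb
  have hb0 : (0 : ℝ) < b := by linarith
  have hlb : 0 < Real.log b := Real.log_pos (by linarith)
  set c1 : ℝ := 1 / (2 * (b : ℝ) ^ 10) with hc1
  have hc10 : 0 < c1 := by positivity
  obtain ⟨I0, hI0, hI⟩ : ∃ I0 : ℕ, 0 < I0 ∧ (b : ℝ) ^ 2 * Real.exp (-c1 * I0) ≤ 0.18 := by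
    have h1 : Filter.Tendsto (fun n : ℕ => (b : ℝ) ^ 2 * Real.exp (-c1 * n)) Filter.atTop
        (nhds ((b : ℝ) ^ 2 * 0)) := by
      apply Filter.Tendsto.const_mul
      apply Real.tendsto_exp_atBot.comp
      apply Filter.Tendsto.const_mul_atTop_of_neg (by linarith)
      exact tendsto_natCast_atTop_atTop
    rw [mul_zero] at h1
    have h2 := (h1.eventually (gt_mem_nhds (by norm_num : (0 : ℝ) < 0.18))).and
      (Filter.eventually_gt_atTop 0)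
    obtain ⟨n, hn⟩ := h2.exists
    exact ⟨n, hn.2, hn.1.le⟩
  obtain ⟨C, hC1, hC⟩ := Pool.Agent.Helper924.MW.Lower.exists_divisor_bound 8 (by norm_num)
  have hC1r : (1 : ℝ) ≤ C := by exact_mod_cast hC1
  have hI0r : (0 : ℝ) < I0 := by exact_mod_cast hI0
  set K1 : ℝ := b * (2 * C * (b : ℝ) ^ 2 * Real.exp (2 * c1)) with hK1
  set K2 : ℝ := 2 * C * (b : ℝ) ^ 2 * Real.exp (Real.log b / 4) with hK2
  set c2 : ℝ := min (Real.sqrt (c1 * Real.log b)) (Real.log b / (16 * I0)) with hc2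
  have hc20 : 0 < c2 := lt_min (Real.sqrt_pos.2 (by positivity)) (by positivity)
  refine ⟨(1 + 2 * Real.log b) ^ 4 * (K1 + K2), c2, by positivity, hc20, ?_⟩
  intro L
  set tm := L / 8 with htm
  set R := b ^ tm with hR
  set D := R ^ 2 with hD
  have hR1 : 1 ≤ R := Nat.one_le_pow _ _ (by omega)
  have hDB : D = (b ^ 2) ^ tm := by rw [hD, hR, ← pow_mul, ← pow_mul, mul_comm]
  have hB1 : 1 < b ^ 2 := Nat.one_lt_pow (by norm_num) (by omega)
  set S := (Icc 2 D).filter (fun r => r ∣ PP (q0 b) R) with hS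
  have hmaps : ∀ r ∈ S, Nat.clog (b ^ 2) r ∈ Icc 1 tm := by
    intro r hr
    rw [hS, mem_filter, mem_Icc] at hr
    rw [mem_Icc]
    constructor
    · exact Nat.clog_pos hB1 hr.1.1
    · rw [Nat.clog_le_iff_le_pow hB1, ← hDB]
      exact hr.1.2
  set X := b ^ L with hX
  set G : ℕ → ℝ → ℂ := fun t α => ∑ r ∈ S with Nat.clog (b ^ 2) r = t,
    (cr b R r : ℂ) * ∑ a ∈ Un r, Psi b L ((a : ℝ) / r) α with hG
  set lam : ℝ := (selS (apSieve 0 (q0 b) 0 R) (R : ℝ))⁻¹ with hlam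
  have hdec : vec X (FF b L R) = ((lam : ℝ) : ℂ) • vec X (Psi b L 0) +
      ∑ t ∈ Icc 1 tm, vec X (G t) := by
    have h1 : FF b L R = fun α => ((lam : ℝ) : ℂ) * Psi b L 0 α + ∑ t ∈ Icc 1 tm, G t α := by
      funext α
      rw [FF_split b L R hR1 α]
      congr 1
      exact (sum_fiberwise_of_maps_to hmaps _).symm
    rw [h1, vec_add, vec_smul, vec_sum]
  have hlam0 : 0 ≤ lam := by
    have h4 := selS_pos (apSieve 0 (q0 b) 0 R) R (by exact_mod_cast hR1)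
    rw [hlam]
    positivity
  set H := Hs D with hH
  have hH0 : 0 ≤ H := Hs_nonneg D
  set E : ℝ := Real.exp (-c2 * Real.sqrt L) with hE
  have hE0 : 0 < E := Real.exp_pos _
  have hsqL : Real.sqrt L ≤ L := by
    rcases Nat.eq_zero_or_pos L with h | h
    · rw [h]; simp
    · have h1 : (1 : ℝ) ≤ L := by exact_mod_cast h
      rw [Real.sqrt_le_left (by linarith)]
      nlinarith
  have hsq0 : 0 ≤ Real.sqrt L := Real.sqrt_nonneg _
  have hblock : ∀ t ∈ Icc 1 tm, ‖vec X (G t)‖ ≤ (b : ℝ) ^ L * (H ^ 4 * ((K1 + K2) * E)) := by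
    intro t ht
    rw [mem_Icc] at ht
    have hQ : ∀ r ∈ S.filter (fun r => Nat.clog (b ^ 2) r = t),
        2 ≤ r ∧ r ∣ PP (q0 b) R ∧ (b ^ 2) ^ (t - 1) < r ∧ r ≤ (b ^ 2) ^ t := by
      intro r hr
      rw [mem_filter, hS, mem_filter, mem_Icc] at hr
      obtain ⟨⟨⟨hr1, hr2⟩, hr3⟩, hr4⟩ := hr
      refine ⟨hr1, hr3, ?_, ?_⟩
      · rw [← hr4]
        exact Nat.pow_pred_clog_lt_self hB1 (by omega)
      · rw [← hr4]
        exact Nat.le_pow_clog hB1 r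
    rcases le_or_gt t (L / 2 / (2 * I0)) with h | h
    · -- small
      have h1 := block b hb C I0 hC1 hC hI0 hI L t R ht.1 h _ hQ
      have h2 := norm_small b hb L R hR1 _ _ (fun r hr => (hQ r hr).1) h1
      refine h2.trans ?_
      have h3 : Real.exp (-Real.sqrt (c1 * Real.log b) * Real.sqrt L) ≤ E := by
        rw [hE, Real.exp_le_exp]
        have h4 : c2 ≤ Real.sqrt (c1 * Real.log b) := min_le_left _ _
        nlinarith
      calc Hs (R ^ 2) ^ 4 * b * (b : ℝ) ^ L * (2 * C * (b : ℝ) ^ 2 * Real.exp (2 * c1) *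
            Real.exp (-Real.sqrt (c1 * Real.log b) * Real.sqrt L)) =
          (b : ℝ) ^ L * (H ^ 4 * (K1 * Real.exp (-Real.sqrt (c1 * Real.log b) * Real.sqrt L))) := by
            rw [hK1, hH, hD]; ring
        _ ≤ (b : ℝ) ^ L * (H ^ 4 * ((K1 + K2) * E)) := by
            have h5 : 0 ≤ K2 := by positivity
            gcongr
            linarith
    · -- large
      have h1 : 8 * t ≤ L := by omega
      have h2 := norm_large b hb hrho C hC1 hC L t R hR1 ht.1 h1 _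
        (fun r hr => ⟨(hQ r hr).1, (hQ r hr).2.2.1, (hQ r hr).2.2.2⟩)
      refine h2.trans ?_
      have h3 : Real.exp (-(t * (Real.log b / 4))) ≤ Real.exp (Real.log b / 4) * E := by
        rw [hE, ← Real.exp_add, Real.exp_le_exp]
        have h4 : (L : ℝ) / (4 * I0) ≤ t + 1 := by
          have h5 : L ≤ 2 * (L / 2) + 1 := by omega
          have h6 : L / 2 < (L / 2 / (2 * I0) + 1) * (2 * I0) := by
            have := Nat.lt_div_mul_add (a := L / 2) (b := 2 * I0) (by omega)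
            calc L / 2 < L / 2 / (2 * I0) * (2 * I0) + 2 * I0 := this
              _ = (L / 2 / (2 * I0) + 1) * (2 * I0) := by ring
          have h7 : L ≤ (t + 1) * (4 * I0) := by
            have h8 : L / 2 / (2 * I0) + 1 ≤ t := h
            have h9 : (L / 2 / (2 * I0) + 1) * (2 * I0) ≤ t * (2 * I0) := Nat.mul_le_mul_right _ h8
            have h10 : (t + 1) * (4 * I0) = 2 * (t * (2 * I0)) + 4 * I0 := by ring
            omega
          rw [div_le_iff₀ (by positivity)]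
          exact_mod_cast h7
        have h5 : c2 ≤ Real.log b / (16 * I0) := min_le_right _ _
        have h6 : c2 * Real.sqrt L ≤ Real.log b / (16 * I0) * L :=
          mul_le_mul h5 hsqL hsq0 (by positivity)
        have h7 : Real.log b / (16 * I0) * L = (L : ℝ) / (4 * I0) * (Real.log b / 4) := by
          field_simp; ring
        have h8 : (L : ℝ) / (4 * I0) * (Real.log b / 4) ≤ (t + 1) * (Real.log b / 4) :=
          mul_le_mul_of_nonneg_right h4 (by positivity)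
        linarith
      calc 2 * Hs (R ^ 2) ^ 4 * C * (b : ℝ) ^ 2 * (b : ℝ) ^ L *
            Real.exp (-(t * (Real.log b / 4))) ≤
          2 * Hs (R ^ 2) ^ 4 * C * (b : ℝ) ^ 2 * (b : ℝ) ^ L *
            (Real.exp (Real.log b / 4) * E) := by
            gcongr
        _ = (b : ℝ) ^ L * (H ^ 4 * (K2 * E)) := by rw [hK2, hH, hD]; ring
        _ ≤ (b : ℝ) ^ L * (H ^ 4 * ((K1 + K2) * E)) := by
            have h5 : 0 ≤ K1 := by positivity
            gcongr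
            linarith
  have htmL : (tm : ℝ) ≤ 1 + L := by
    have : tm ≤ L := Nat.div_le_self _ _
    have h3 : (tm : ℝ) ≤ L := by exact_mod_cast this
    linarith
  have hHs : H ≤ (1 + 2 * Real.log b) * (1 + L) := by
    refine (Hs_le D).trans ?_
    have h3 : Real.log D = tm * (2 * Real.log b) := by
      rw [hDB]; push_cast
      rw [← pow_mul, Real.log_pow]; push_cast; ring
    rw [h3]
    have : (tm : ℝ) * (2 * Real.log b) ≤ (1 + L) * (2 * Real.log b) :=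
      mul_le_mul_of_nonneg_right htmL (by positivity)
    have h4 : (0 : ℝ) ≤ L := Nat.cast_nonneg _
    nlinarith
  have h5 : H ^ 4 ≤ ((1 + 2 * Real.log b) * (1 + L)) ^ 4 :=
    pow_le_pow_left₀ hH0 hHs 4
  rw [hdec]
  refine (norm_add_le _ _).trans ?_
  rw [mul_add]
  apply add_le_add
  · rw [norm_smul, Complex.norm_real, Real.norm_of_nonneg hlam0, mul_comm]
    exact mul_le_mul_of_nonneg_right (norm_vec_zero b L hb) hlam0
  · refine (norm_sum_le _ _).trans ?_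
    refine (sum_le_sum hblock).trans ?_
    rw [sum_const, Nat.card_Icc, nsmul_eq_mul, Nat.add_sub_cancel]
    have hK0 : 0 ≤ K1 + K2 := by positivity
    calc (tm : ℝ) * ((b : ℝ) ^ L * (H ^ 4 * ((K1 + K2) * E))) ≤
        (1 + L) * ((b : ℝ) ^ L * (((1 + 2 * Real.log b) * (1 + L)) ^ 4 * ((K1 + K2) * E))) := by
          gcongr
      _ = _ := by ring

end Pool.Agent.R482.KB
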