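import Pool.Agent.R482.KB.Ltwo

/-! The decomposition of the exponential sum with the majorant according to the denominators. -/

set_option autoImplicit false

namespace Pool.Agent.R482.KB
open Finset
open Pool.Agent.R456.RP
open Pool.Agent.Helper923.PPS

/-- the fractions `h / d` in lowest terms -/
lemma frac_eq {E : Type*} [AddCommMonoid E] (d : ℕ) (hd : 0 < d) (G : ℝ → E) :
    ∑ h ∈ range d, G ((h : ℝ) / d) = ∑ r ∈ d.divisors, ∑ a ∈ Un r, G ((a : ℝ) / r) := by
  rw [sum_sigma' d.divisors (fun r => Un r) (fun r a => G ((a : ℝ) / r))]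
  refine sum_bij' (fun h _ => (⟨d / Nat.gcd h d, h / Nat.gcd h d⟩ : Σ _ : ℕ, ℕ))
    (fun p _ => p.2 * (d / p.1)) ?_ ?_ ?_ ?_ ?_
  · intro h hh
    rw [mem_range] at hh
    have hg1 : 0 < Nat.gcd h d := Nat.gcd_pos_of_pos_right _ hd
    rw [mem_sigma, Nat.mem_divisors]
    simp only [Un, mem_filter, mem_range]
    refine ⟨⟨Nat.div_dvd_of_dvd (Nat.gcd_dvd_right _ _), hd.ne'⟩, ?_, ?_⟩
    · exact Nat.div_lt_div_of_lt_of_dvd (Nat.gcd_dvd_right _ _) hh
    · exact Nat.coprime_div_gcd_div_gcd hg1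
  · intro p hp
    rw [mem_sigma, Nat.mem_divisors] at hp
    simp only [Un, mem_filter, mem_range] at hp
    obtain ⟨⟨⟨k, hk⟩, _⟩, h1, h2⟩ := hp
    have hp0 : 0 < p.1 := by omega
    have hk0 : 0 < k := Nat.pos_of_ne_zero (by rintro rfl; omega)
    rw [mem_range]
    have h3 : d / p.1 = k := by rw [hk, Nat.mul_div_cancel_left _ hp0]
    rw [h3, hk]
    exact Nat.mul_lt_mul_of_pos_right h1 hk0
  · intro h hh
    rw [mem_range] at hh
    have hg1 : 0 < Nat.gcd h d := Nat.gcd_pos_of_pos_right _ hd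
    have h1 : d / (d / Nat.gcd h d) = Nat.gcd h d :=
      Nat.div_div_self (Nat.gcd_dvd_right _ _) hd.ne'
    simp only [h1]
    exact Nat.div_mul_cancel (Nat.gcd_dvd_left _ _)
  · intro p hp
    rw [mem_sigma, Nat.mem_divisors] at hp
    simp only [Un, mem_filter, mem_range] at hp
    obtain ⟨⟨⟨k, hk⟩, _⟩, h1, h2⟩ := hp
    have hp0 : 0 < p.1 := by omega
    have hk0 : 0 < k := Nat.pos_of_ne_zero (by rintro rfl; omega)
    have h3 : d / p.1 = k := by rw [hk, Nat.mul_div_cancel_left _ hp0]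
    have h4 : Nat.gcd (p.2 * (d / p.1)) d = k := by
      rw [h3, hk, Nat.gcd_mul_right, Nat.Coprime.gcd_eq_one h2, one_mul]
    rcases p with ⟨u, v⟩
    simp only at h3 h4 hk hp0 ⊢
    rw [Sigma.mk.injEq, heq_eq_eq, h4]
    constructor
    · rw [hk, Nat.mul_div_cancel _ hk0]
    · rw [h3, Nat.mul_div_cancel _ hk0]
  · intro h hh
    have hg1 : 0 < Nat.gcd h d := Nat.gcd_pos_of_pos_right _ hd
    have hg0 : ((Nat.gcd h d : ℕ) : ℝ) ≠ 0 := by positivity
    congr 1
    simp only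
    rw [Nat.cast_div (Nat.gcd_dvd_left _ _) hg0, Nat.cast_div (Nat.gcd_dvd_right _ _) hg0]
    field_simp

/-- the coefficient of the denominator `r` -/
noncomputable def cr (b R r : ℕ) : ℝ :=
  ∑ d ∈ (PP (q0 b) R).divisors.filter (fun d => r ∣ d), wt (q0 b) R d / d

lemma cr_one (b R : ℕ) (hR : 1 ≤ R) : cr b R 1 = (selS (apSieve 0 (q0 b) 0 R) R)⁻¹ := by
  rw [← sum_wt (q0 b) R hR]
  unfold cr
  rw [filter_true_of_mem]
  intro d _
  exact one_dvd d

lemma cr_zero (b R r : ℕ) (hR : 1 ≤ R) (hr : R ^ 2 < r) : cr b R r = 0 := by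
  unfold cr
  apply sum_eq_zero
  intro d hd
  rw [mem_filter, Nat.mem_divisors] at hd
  have hd0 : 0 < d := Nat.pos_of_ne_zero (fun h => by
    rw [h] at hd
    exact (PP_squarefree (q0 b) R).ne_zero (zero_dvd_iff.1 hd.1.1))
  have h1 : r ≤ d := Nat.le_of_dvd hd0 hd.2
  have h2 := abs_wt_le (q0 b) R d hR hd.1.1
  rw [if_neg (by omega)] at h2
  have h3 : wt (q0 b) R d = 0 := abs_eq_zero.1 (le_antisymm h2 (abs_nonneg _))
  rw [h3, zero_div]

lemma abs_cr_le (b R r : ℕ) (hR : 1 ≤ R) (hr0 : 0 < r) :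
    |cr b R r| ≤ Hs (R ^ 2) ^ 4 * (tt r ^ 2 / r) := by
  set P := PP (q0 b) R with hP
  set D := R ^ 2 with hD
  set 𝓓 := P.divisors.filter (fun d => d ≤ D) with h𝓓
  have h1 : |cr b R r| ≤ ∑ d ∈ 𝓓.filter (fun d => r ∣ d), tt d ^ 2 / d := by
    unfold cr
    refine (abs_sum_le_sum_abs _ _).trans ?_
    rw [h𝓓, filter_filter, sum_filter, sum_filter]
    apply sum_le_sum
    intro d hd
    have hdP := (Nat.mem_divisors.1 hd).1
    have h2 := abs_wt_le (q0 b) R d hR hdP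
    by_cases h3 : r ∣ d
    · rw [if_pos h3, abs_div, abs_of_nonneg (Nat.cast_nonneg d : (0 : ℝ) ≤ d)]
      by_cases h4 : d ≤ D
      · rw [if_pos ⟨h4, h3⟩]
        rw [if_pos h4] at h2
        exact div_le_div_of_nonneg_right h2 (Nat.cast_nonneg _)
      · rw [if_neg (fun h => h4 h.1)]
        rw [if_neg h4] at h2
        have h5 : |wt (q0 b) R d| = 0 := le_antisymm h2 (abs_nonneg _)
        rw [h5, zero_div]
    · rw [if_neg h3, if_neg (fun h => h3 h.2)]
  refine h1.trans ?_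
  -- d = r * m
  have h3 : ∑ d ∈ 𝓓.filter (fun d => r ∣ d), tt d ^ 2 / d ≤
      ∑ m ∈ (Icc 1 D).filter Squarefree, (tt r ^ 2 / r) * (tt m ^ 2 / m) := by
    have hval : ∀ d ∈ 𝓓.filter (fun d => r ∣ d), tt d ^ 2 / d =
        (tt r ^ 2 / r) * (tt (d / r) ^ 2 / ((d / r : ℕ) : ℝ)) := by
      intro d hd
      rw [mem_filter, h𝓓, mem_filter, Nat.mem_divisors] at hd
      obtain ⟨⟨⟨hdP, _⟩, hdD⟩, hrd⟩ := hd
      obtain ⟨m, rfl⟩ := hrd
      have hsq : Squarefree (r * m) := (PP_squarefree (q0 b) R).squarefree_of_dvd hdP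
      have hc : Nat.Coprime r m := Nat.coprime_of_squarefree_mul hsq
      rw [Nat.mul_div_cancel_left _ hr0]
      have h5 : tt (r * m) = tt r * tt m := by
        unfold tt; rw [hc.card_divisors_mul]; push_cast; rfl
      rw [h5, div_mul_div_comm]
      push_cast
      rw [mul_pow]
    have hinj : Set.InjOn (fun d : ℕ => d / r) (𝓓.filter (fun d => r ∣ d)) := by
      intro d hd d' hd' h
      rw [mem_coe, mem_filter] at hd hd'
      simp only at h
      rw [← Nat.div_mul_cancel hd.2, ← Nat.div_mul_cancel hd'.2, h]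
    rw [sum_congr rfl hval,
      ← sum_image (f := fun m : ℕ => (tt r ^ 2 / r) * (tt m ^ 2 / (m : ℝ))) hinj]
    apply sum_le_sum_of_subset_of_nonneg
    · intro m hm
      rw [mem_image] at hm
      obtain ⟨d, hd, rfl⟩ := hm
      rw [mem_filter, h𝓓, mem_filter, Nat.mem_divisors] at hd
      obtain ⟨⟨⟨hdP, _⟩, hdD⟩, hrd⟩ := hd
      obtain ⟨m, rfl⟩ := hrd
      have hsq : Squarefree (r * m) := (PP_squarefree (q0 b) R).squarefree_of_dvd hdP
      rw [Nat.mul_div_cancel_left _ hr0, mem_filter, mem_Icc]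
      have hm0 : 0 < m := Nat.pos_of_ne_zero (by rintro rfl; simp at hsq)
      have h6 : m ≤ r * m := Nat.le_mul_of_pos_left _ hr0
      exact ⟨⟨hm0, by omega⟩, hsq.squarefree_of_dvd (dvd_mul_left _ _)⟩
    · intro m _ _
      positivity
  refine h3.trans ?_
  rw [← mul_sum, mul_comm]
  exact mul_le_mul_of_nonneg_right (sum_tt_sq D) (by positivity)

lemma FF_eq2 (b L R : ℕ) (α : ℝ) : FF b L R α = ∑ r ∈ (PP (q0 b) R).divisors,
    (cr b R r : ℂ) * ∑ a ∈ Un r, Psi b L ((a : ℝ) / r) α := by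
  rw [FF_eq]
  set P := PP (q0 b) R with hP
  have hP0 : P ≠ 0 := (PP_squarefree (q0 b) R).ne_zero
  have h1 : ∀ d ∈ P.divisors, (((wt (q0 b) R d / d : ℝ)) : ℂ) *
      ∑ h ∈ range d, Psi b L ((h : ℝ) / d) α = ∑ r ∈ P.divisors,
        if r ∣ d then (((wt (q0 b) R d / d : ℝ)) : ℂ) * ∑ a ∈ Un r, Psi b L ((a : ℝ) / r) α
        else 0 := by
    intro d hd
    have hd0 : 0 < d := Nat.pos_of_mem_divisors hd
    rw [frac_eq d hd0 (fun x => Psi b L x α), mul_sum, ← sum_filter]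
    apply sum_congr _ (fun _ _ => rfl)
    ext r
    rw [mem_filter, Nat.mem_divisors, Nat.mem_divisors]
    constructor
    · rintro ⟨h2, _⟩
      exact ⟨⟨h2.trans (Nat.mem_divisors.1 hd).1, hP0⟩, h2⟩
    · rintro ⟨_, h2⟩
      exact ⟨h2, hd0.ne'⟩
  rw [sum_congr rfl h1, sum_comm]
  apply sum_congr rfl
  intro r _
  unfold cr
  rw [← sum_filter, ← sum_mul, Complex.ofReal_sum]

lemma FF_split (b L R : ℕ) (hR : 1 ≤ R) (α : ℝ) : FF b L R α =
    (((selS (apSieve 0 (q0 b) 0 R) R)⁻¹ : ℝ) : ℂ) * Psi b L 0 α +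
      ∑ r ∈ (Icc 2 (R ^ 2)).filter (fun r => r ∣ PP (q0 b) R),
        (cr b R r : ℂ) * ∑ a ∈ Un r, Psi b L ((a : ℝ) / r) α := by
  rw [FF_eq2]
  set P := PP (q0 b) R with hP
  have hP0 : P ≠ 0 := (PP_squarefree (q0 b) R).ne_zero
  have h1 : (1 : ℕ) ∈ P.divisors := Nat.mem_divisors.2 ⟨one_dvd _, hP0⟩
  rw [← add_sum_erase _ _ h1]
  congr 1
  · rw [cr_one b R hR]
    congr 1
    have : Un 1 = {0} := by
      unfold Un
      ext a
      simp
    rw [this, sum_singleton]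
    simp
  · symm
    apply sum_subset
    · intro r hr
      rw [mem_filter, mem_Icc] at hr
      rw [mem_erase, Nat.mem_divisors]
      exact ⟨by omega, hr.2, hP0⟩
    · intro r hr hr'
      rw [mem_erase, Nat.mem_divisors] at hr
      have hr0 : r ≠ 0 := by
        rintro rfl
        exact hP0 (zero_dvd_iff.1 hr.2.1)
      have h2 : R ^ 2 < r := by
        by_contra hcon
        apply hr'
        rw [mem_filter, mem_Icc]
        exact ⟨⟨by omega, by omega⟩, hr.2.1⟩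
      rw [cr_zero b R r hR h2]
      simp

lemma norm_vec_zero (b L : ℕ) (hb : 2 ≤ b) : ‖vec (b ^ L) (Psi b L 0)‖ ≤ (b : ℝ) ^ L := by
  set X := b ^ L with hX
  have hX0 : 0 < X := by positivity
  have hXr : ((X : ℕ) : ℝ) = (b : ℝ) ^ L := by rw [hX]; push_cast; rfl
  have h1 := vec_norm X (Psi b L 0)
  have h2 : ∀ k ∈ range X, ‖Psi b L 0 ((k : ℝ) / X)‖ ^ 4 = if k = 0 then (X : ℝ) ^ 4 else 0 := by
    intro k hk
    rw [mem_range] at hk
    have h3 : Psi b L 0 ((k : ℝ) / X) = ∑ m ∈ range X, e (((k : ℤ) : ℝ) * (m / X)) := by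
      unfold Psi
      have hmaps : Set.MapsTo (fun n => rev b L n) (range X) (range X) := by
        intro n hn
        rw [mem_coe, mem_range] at hn ⊢
        exact rev_lt b L (by omega) n hn
      have hinj : Set.InjOn (fun n => rev b L n) (range X) := by
        intro n hn m hm h
        rw [mem_coe, mem_range] at hn hm
        exact rev_inj b L (by omega) n hn m hm h
      refine sum_nbij (fun n => rev b L n) (fun a ha => hmaps ha) hinj
        (surjOn_of_injOn_of_card_le _ hmaps hinj le_rfl) ?_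
      intro n _
      congr 1
      push_cast
      ring
    rw [h3, sum_e X hX0]
    by_cases hk0 : k = 0
    · rw [if_pos hk0, if_pos (by rw [hk0]; simp)]
      rw [Complex.norm_natCast]
    · rw [if_neg hk0, if_neg]
      · simp
      · intro hdvd
        have h4 : X ∣ k := by exact_mod_cast hdvd
        exact absurd (Nat.le_of_dvd (by omega) h4) (by omega)
  rw [sum_congr rfl h2, sum_ite_eq', if_pos (mem_range.2 hX0)] at h1
  rw [← hXr]
  exact le_of_pow_le_pow_left₀ (by norm_num) (Nat.cast_nonneg _) h1.le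

end Pool.Agent.R482.KB
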