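import Mathlib
import Pool.Agent.R482.KB.Stm

/-! S1: sums of few digits coprime to `b`. -/

set_option autoImplicit false

namespace Pool.Agent.R482.KB
open Finset

private lemma log_sqrt_small : ∀ᶠ x : ℝ in Filter.atTop,
    Real.log (x + 1) + 2 * Real.sqrt x * Real.log x ≤ (1 / 100) * x := by
  have h1 : (fun x : ℝ => Real.log x) =o[Filter.atTop] (fun x : ℝ => x ^ (1 / 4 : ℝ)) :=
    isLittleO_log_rpow_atTop (by norm_num)
  have h2 := h1.bound (show (0 : ℝ) < 1 by norm_num)
  have h3 : Filter.Tendsto (fun x : ℝ => x ^ (1 / 4 : ℝ)) Filter.atTop Filter.atTop :=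
    tendsto_rpow_atTop (by norm_num)
  filter_upwards [h2, h3.eventually_ge_atTop 1000, Filter.eventually_ge_atTop 1,
    (Filter.tendsto_atTop_add_const_right Filter.atTop (1 : ℝ) Filter.tendsto_id).eventually h2]
    with x hx1 hx2 hx3 hx4
  have hx0 : 0 < x := by linarith
  set y := x ^ (1 / 4 : ℝ) with hy
  have hy4 : y ^ 4 = x := by
    rw [hy, ← Real.rpow_natCast, ← Real.rpow_mul hx0.le]; norm_num
  have hsq : Real.sqrt x = y ^ 2 := by
    rw [← hy4, show y ^ 4 = (y ^ 2) ^ 2 by ring, Real.sqrt_sq (by positivity)]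
  have hlog : Real.log x ≤ y := by
    rw [one_mul, Real.norm_eq_abs, Real.norm_eq_abs, abs_of_nonneg (Real.log_nonneg hx3),
      abs_of_nonneg (by positivity)] at hx1
    exact hx1
  have hlog2 : Real.log (x + 1) ≤ 2 * y := by
    have h5 : Real.log (x + 1) ≤ (x + 1) ^ (1 / 4 : ℝ) := by
      simp only [id] at hx4
      rw [one_mul, Real.norm_eq_abs, Real.norm_eq_abs,
        abs_of_nonneg (Real.log_nonneg (by linarith)), abs_of_nonneg (by positivity)] at hx4
      exact hx4
    refine h5.trans ?_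
    calc (x + 1) ^ (1 / 4 : ℝ) ≤ (16 * x) ^ (1 / 4 : ℝ) :=
          Real.rpow_le_rpow (by linarith) (by linarith) (by norm_num)
      _ = 2 * y := by
          rw [Real.mul_rpow (by norm_num) hx0.le]
          congr 1
          rw [show (16 : ℝ) = 2 ^ (4 : ℝ) by norm_num, ← Real.rpow_mul (by norm_num)]
          norm_num
  rw [hsq]
  have hy0 : 0 < y := by linarith
  calc Real.log (x + 1) + 2 * y ^ 2 * Real.log x ≤ 2 * y + 2 * y ^ 2 * y := by
        gcongr
    _ ≤ (1 / 100) * y ^ 4 := by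
        have h6 : 1000 * y ^ 3 ≤ y ^ 4 := by
          calc 1000 * y ^ 3 ≤ y * y ^ 3 := by gcongr
            _ = y ^ 4 := by ring
        have h7 : y ≤ y ^ 3 := by
          have : 1 ≤ y ^ 2 := by nlinarith
          nlinarith
        nlinarith
    _ = (1 / 100) * x := by rw [hy4]

private lemma theta_nat (n : ℕ) : Chebyshev.theta (n : ℝ) =
    ∑ p ∈ (Ioc 0 n).filter Nat.Prime, Real.log p := by
  unfold Chebyshev.theta
  rw [Nat.floor_natCast]

private lemma exists_prime (t0 : ℕ)
    (ht0 : ∀ x : ℕ, t0 ≤ x → Real.log ((x : ℝ) + 1) + 2 * Real.sqrt x * Real.log x ≤ (1 / 100) * x)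
    (b : ℕ) (hb : 4 ≤ b) (t : ℕ) (ht : t0 ≤ t) (htb : 4 * Real.log b < t) :
    ∃ p : ℕ, p.Prime ∧ ¬ p ∣ b ∧ t / 4 < p ∧ p ≤ t := by
  by_contra hcon
  push Not at hcon
  have hlb : 0 < Real.log b := Real.log_pos (by exact_mod_cast (by omega : 1 < b))
  have htpos : (0 : ℝ) < t := by linarith
  set s := t / 4 with hs
  have hst : s ≤ t := Nat.div_le_self _ _
  have h1 := ht0 t ht
  have h2 := Chebyshev.theta_ge t
  have h3 := Chebyshev.theta_le_log4_mul_x (x := (s : ℝ)) (by positivity)
  have hl2 := Real.log_two_gt_d9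
  have hl2' := Real.log_two_lt_d9
  have hl4 : Real.log 4 = 2 * Real.log 2 := by
    rw [show (4 : ℝ) = 2 ^ 2 by norm_num, Real.log_pow]; norm_num
  have h4 : (s : ℝ) ≤ t / 4 := Nat.cast_div_le
  have h5 : (t : ℝ) / 4 ≤ Chebyshev.theta t - Chebyshev.theta s := by
    have h6 : Real.log 4 * (s : ℝ) ≤ Real.log 4 * (t / 4) :=
      mul_le_mul_of_nonneg_left h4 (by rw [hl4]; linarith)
    rw [hl4] at h6 h3
    have h7 : t * Real.log 2 - 2 * Real.log 2 * (t / 4) ≥ (0.3 : ℝ) * t := by nlinarith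
    linarith
  -- the difference is a sum over the primes in `(s, t]`
  have hdis : Chebyshev.theta t - Chebyshev.theta s =
      ∑ p ∈ (Ioc s t).filter Nat.Prime, Real.log p := by
    rw [theta_nat, theta_nat, ← Finset.Ioc_union_Ioc_eq_Ioc (Nat.zero_le s) hst,
      Finset.filter_union, Finset.sum_union]
    · ring
    · rw [Finset.disjoint_left]
      intro a ha hb'
      simp only [Finset.mem_filter, Finset.mem_Ioc] at ha hb'
      omega
  have hprod : ∏ p ∈ (Ioc s t).filter Nat.Prime, p ∣ b := by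
    apply Finset.prod_primes_dvd
    · intro p hp
      simp only [Finset.mem_filter] at hp
      exact hp.2.prime
    · intro p hp
      simp only [Finset.mem_filter, Finset.mem_Ioc] at hp
      by_contra hnd
      have := hcon p hp.2 hnd hp.1.1
      omega
  have hle : ∏ p ∈ (Ioc s t).filter Nat.Prime, p ≤ b := Nat.le_of_dvd (by omega) hprod
  have hpos : 0 < ∏ p ∈ (Ioc s t).filter Nat.Prime, p := Finset.prod_pos (fun p hp => by
    simp only [Finset.mem_filter] at hp; exact hp.2.pos)
  have hlog : ∑ p ∈ (Ioc s t).filter Nat.Prime, Real.log p ≤ Real.log b := by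
    rw [← Real.log_prod (s := (Ioc s t).filter Nat.Prime) (f := fun p : ℕ => (p : ℝ))]
    · have e : (∏ p ∈ (Ioc s t).filter Nat.Prime, (p : ℝ)) =
          ((∏ p ∈ (Ioc s t).filter Nat.Prime, p : ℕ) : ℝ) := by
        rw [Nat.cast_prod]
      rw [e]
      apply Real.log_le_log
      · exact_mod_cast hpos
      · exact_mod_cast hle
    · intro p hp
      simp only [Finset.mem_filter] at hp
      exact_mod_cast hp.2.ne_zero
  rw [hdis] at h5
  linarith

private lemma small_sums (t0 : ℕ) (h4 : 4 ≤ t0)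
    (ht0 : ∀ x : ℕ, t0 ≤ x → Real.log ((x : ℝ) + 1) + 2 * Real.sqrt x * Real.log x ≤ (1 / 100) * x)
    (b : ℕ) (hb : 4 ≤ b) (t : ℕ) : t < b →
    ∃ l : List ℕ, (l.length : ℝ) ≤ t0 + 4 * Real.log b + 5 * Real.log (t + 1) ∧
      (∀ a ∈ l, 1 ≤ a ∧ a < b ∧ Nat.Coprime a b) ∧ l.sum = t := by
  have hlb : 0 < Real.log b := Real.log_pos (by exact_mod_cast (by omega : 1 < b))
  induction t using Nat.strong_induction_on with
  | _ t ih =>
  intro htb
  by_cases hsmall : t < t0 ∨ (t : ℝ) ≤ 4 * Real.log b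
  · refine ⟨List.replicate t 1, ?_, ?_, ?_⟩
    · rw [List.length_replicate]
      have hl : 0 ≤ Real.log ((t : ℝ) + 1) := Real.log_nonneg (by
        have : (0 : ℝ) ≤ t := Nat.cast_nonneg t
        linarith)
      have h0 : (0 : ℝ) ≤ t0 := Nat.cast_nonneg t0
      rcases hsmall with h | h
      · have : (t : ℝ) < t0 := by exact_mod_cast h
        linarith
      · linarith
    · intro a ha
      rw [List.mem_replicate] at ha
      rw [ha.2]
      exact ⟨le_rfl, by omega, Nat.coprime_one_left b⟩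
    · simp
  · push Not at hsmall
    obtain ⟨p, hp, hpb, hp1, hp2⟩ := exists_prime t0 ht0 b hb t hsmall.1 hsmall.2
    have hppos := hp.pos
    obtain ⟨l, hl1, hl2, hl3⟩ := ih (t - p) (by omega) (by omega)
    refine ⟨p :: l, ?_, ?_, ?_⟩
    · rw [List.length_cons]
      push_cast
      have h5 : Real.log (((t - p : ℕ) : ℝ) + 1) ≤ Real.log ((t : ℝ) + 1) - 1 / 5 := by
        have h6 : (((t - p : ℕ) : ℝ) + 1) ≤ (4 / 5) * ((t : ℝ) + 1) := by
          have h7 : 5 * (t - p + 1) ≤ 4 * (t + 1) := by omega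
          have h8 : (5 : ℝ) * (((t - p : ℕ) : ℝ) + 1) ≤ 4 * ((t : ℝ) + 1) := by exact_mod_cast h7
          linarith
        have h9 : (0 : ℝ) < (t : ℝ) + 1 := by positivity
        calc Real.log (((t - p : ℕ) : ℝ) + 1) ≤ Real.log ((4 / 5) * ((t : ℝ) + 1)) :=
              Real.log_le_log (by positivity) h6
          _ = Real.log (4 / 5) + Real.log ((t : ℝ) + 1) := by
              rw [Real.log_mul (by norm_num) h9.ne']
          _ ≤ (4 / 5 - 1) + Real.log ((t : ℝ) + 1) := by
              gcongr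
              exact Real.log_le_sub_one_of_pos (by norm_num)
          _ = Real.log ((t : ℝ) + 1) - 1 / 5 := by ring
      linarith
    · intro a ha
      rw [List.mem_cons] at ha
      rcases ha with rfl | ha
      · exact ⟨hppos, by omega, (Nat.Prime.coprime_iff_not_dvd hp).2 hpb⟩
      · exact hl2 a ha
    · rw [List.sum_cons, hl3]; omega

theorem digitSums : DigitSums := by
  obtain ⟨X0, hX0⟩ := Filter.eventually_atTop.1 log_sqrt_small
  obtain ⟨t1, ht1⟩ := exists_nat_ge X0
  set t0 := max t1 4 with ht0d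
  have ht0 : ∀ x : ℕ, t0 ≤ x →
      Real.log ((x : ℝ) + 1) + 2 * Real.sqrt x * Real.log x ≤ (1 / 100) * x := by
    intro x hx
    apply hX0
    have : (t1 : ℝ) ≤ x := by exact_mod_cast (le_max_left _ _).trans hx
    linarith
  refine ⟨t0 + 9, by positivity, ?_⟩
  intro b hb K t ht
  have hb1 : 0 < b - 1 := by omega
  have hr : t % (b - 1) < b := lt_of_lt_of_le (Nat.mod_lt _ hb1) (by omega)
  obtain ⟨l, hl1, hl2, hl3⟩ := small_sums t0 (le_max_right _ _) ht0 b hb (t % (b - 1)) hr
  have hlb : 1 ≤ Real.log b := by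
    have hl2 := Real.log_two_gt_d9
    have hl4 : Real.log 4 = 2 * Real.log 2 := by
      rw [show (4 : ℝ) = 2 ^ 2 by norm_num, Real.log_pow]; norm_num
    have : Real.log 4 ≤ Real.log b := Real.log_le_log (by norm_num) (by exact_mod_cast hb)
    linarith
  refine ⟨List.replicate (t / (b - 1)) (b - 1) ++ l, ?_, ?_, ?_⟩
  · rw [List.length_append, List.length_replicate]
    push_cast
    have h1 : t / (b - 1) ≤ 2 * K := by
      apply Nat.div_le_of_le_mul
      calc t ≤ K * b := ht
        _ ≤ K * (2 * (b - 1)) := Nat.mul_le_mul_left _ (by omega)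
        _ = (b - 1) * (2 * K) := by ring
    have h1' : ((t / (b - 1) : ℕ) : ℝ) ≤ 2 * K := by exact_mod_cast h1
    have h2 : Real.log (((t % (b - 1) : ℕ) : ℝ) + 1) ≤ Real.log b := by
      apply Real.log_le_log (by positivity)
      exact_mod_cast hr
    have h3 : (t0 : ℝ) ≤ t0 * Real.log b := by
      have : (0 : ℝ) ≤ t0 := Nat.cast_nonneg _
      nlinarith
    nlinarith
  · intro a ha
    rw [List.mem_append, List.mem_replicate] at ha
    rcases ha with ha | ha
    · rw [ha.2]
      refine ⟨hb1, by omega, ?_⟩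
      have : Nat.Coprime (b - 1) (b - 1 + 1) := Nat.coprime_self_add_right.2 (Nat.coprime_one_right _)
      rwa [Nat.sub_add_cancel (by omega)] at this
    · exact hl2 a ha
  · rw [List.sum_append, List.sum_replicate, hl3, smul_eq_mul, mul_comm]
    exact Nat.div_add_mod t (b - 1)

end Pool.Agent.R482.KB
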