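import Pool.Agent.R482.KB.Stm
import Pool.Agent.H373R2.T7.LamMaj

/-! Primes with prescribed last two digits. -/

set_option autoImplicit false

namespace Pool.Agent.R482.KB
open Finset
open Pool.Agent.H373R2.T7

lemma lamAP_sub (y₁ y₂ q c : ℕ) (h : y₁ ≤ y₂) :
    lamAP y₂ q c - lamAP y₁ q c = ∑ n ∈ (Ioc y₁ y₂).filter (fun n => n ≡ c [MOD q]), ArithmeticFunction.vonMangoldt n := by
  unfold lamAP
  have h1 : (Icc 1 y₂).filter (fun n => n ≡ c [MOD q]) =
      (Icc 1 y₁).filter (fun n => n ≡ c [MOD q]) ∪ (Ioc y₁ y₂).filter (fun n => n ≡ c [MOD q]) := by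
    rw [← filter_union]
    congr 1
    ext n
    simp only [mem_union, mem_Icc, mem_Ioc]
    omega
  have h2 : Disjoint ((Icc 1 y₁).filter (fun n => n ≡ c [MOD q])) ((Ioc y₁ y₂).filter (fun n => n ≡ c [MOD q])) := by
    rw [disjoint_left]
    intro n hn hn'
    simp only [mem_filter, mem_Icc, mem_Ioc] at hn hn'
    omega
  rw [h1, sum_union h2]
  ring

/-- S2 -/
theorem primesWithDigits : PrimesWithDigits := by
  intro b hb a hab hcop
  obtain ⟨q, hq⟩ : ∃ q, q = b ^ 2 := ⟨_, rfl⟩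
  have hb0 : 0 < b := by omega
  have hq0 : 1 ≤ q := by rw [hq]; exact Nat.one_le_pow _ _ hb0
  have hcq : a.Coprime q := by rw [hq]; exact Nat.Coprime.pow_right 2 hcop
  obtain ⟨y0, hy0⟩ := sw_lam 1 1
  obtain ⟨C, N1, hC, hN1⟩ := pnt_lam 1
  obtain ⟨z1, hz1⟩ := ev_L' (32 * q * (C + 1) + q + 1)
  obtain ⟨z2, hz2⟩ := ev_log' 1 (64 * q)
  obtain ⟨z3, hz3⟩ : ∃ z3 : ℕ, z3 = 256 * q := ⟨_, rfl⟩
  refine ⟨y0 + N1 + z1 + z2 + z3 + 2, fun L hL => ?_⟩
  obtain ⟨y₁, hy₁⟩ : ∃ y, y = b ^ L := ⟨_, rfl⟩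
  obtain ⟨y₂, hy₂⟩ : ∃ y, y = b ^ (L + 1) := ⟨_, rfl⟩
  have hLy : L < y₁ := by rw [hy₁]; exact Nat.lt_pow_self (by omega)
  have hy12 : y₂ = b * y₁ := by rw [hy₁, hy₂, pow_succ']
  have h2y : 2 * y₁ ≤ y₂ := by rw [hy12]; exact Nat.mul_le_mul_right _ hb
  by_contra hcon
  push Not at hcon
  -- the sum consists of proper prime powers
  have hnp : lamAP y₂ q a - lamAP y₁ q a ≤ 2 * √(y₂ : ℝ) * Real.log y₂ := by
    rw [lamAP_sub y₁ y₂ q a (by omega)]
    have h1 := Chebyshev.psi_sub_theta_le (show (1 : ℝ) ≤ y₂ by exact_mod_cast (by omega : 1 ≤ y₂))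
    rw [Chebyshev.psi_sub_theta_eq_sum_not_prime, Nat.floor_natCast] at h1
    refine le_trans ?_ h1
    apply sum_le_sum_of_subset_of_nonneg _ (fun _ _ _ => ArithmeticFunction.vonMangoldt_nonneg)
    intro n hn
    rw [mem_filter, mem_Ioc] at hn
    rw [mem_filter, mem_Ioc]
    refine ⟨⟨by omega, hn.1.2⟩, fun hp => ?_⟩
    have hne : n ≠ y₂ := by
      intro h
      rw [h, hy₂] at hp
      exact Nat.Prime.not_prime_pow (by omega) hp
    have h3 := hcon n hp (by rw [← hy₁]; omega) (by rw [← hy₂]; omega)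
    apply h3
    have h4 : n % q = a % q := hn.2
    rw [← hq, h4]
    apply Nat.mod_eq_of_lt
    rw [hq, pow_two]
    calc a < b := hab
      _ = 1 * b := (one_mul b).symm
      _ ≤ b * b := Nat.mul_le_mul_right _ (by omega)
  -- lower bound
  have hφ0 : 0 < Nat.totient q := Nat.totient_pos.2 hq0
  have hφ : (0 : ℝ) < (Nat.totient q : ℝ) := by exact_mod_cast hφ0
  have hφ1 : (1 : ℝ) ≤ (Nat.totient q : ℝ) := by exact_mod_cast hφ0
  have hφq : (Nat.totient q : ℝ) ≤ q := by exact_mod_cast Nat.totient_le q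
  have hqr : (1 : ℝ) ≤ q := by exact_mod_cast hq0
  have hest : ∀ y : ℕ, y₁ ≤ y → |lamAP y q a - y / (Nat.totient q : ℝ)| ≤ (C + 1) * (y / Real.log y) + 2 := by
    intro y hy
    have hl := hz1 y (by omega)
    have hlogpos : 0 < Real.log y := by
      have : (0 : ℝ) < 32 * q * (C + 1) := by positivity
      linarith
    have h1 := hy0 y (by omega) q hq0 (by
      rw [pow_one]
      have : (0 : ℝ) < 32 * q * (C + 1) := by positivity
      linarith) a hcq
    have h2 := hN1 y (by omega)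
    rw [pow_one] at h1 h2
    have h3 : lamAP y q a - y / (Nat.totient q : ℝ) = (lamAP y q a - lam1 y / (Nat.totient q : ℝ)) + (lam1 y - y) / (Nat.totient q : ℝ) := by ring
    rw [h3]
    refine (abs_add_le _ _).trans ?_
    rw [abs_div, abs_of_pos hφ]
    have h4 : |lam1 y - y| / (Nat.totient q : ℝ) ≤ |lam1 y - y| := div_le_self (abs_nonneg _) hφ1
    have h5 : 0 ≤ (y : ℝ) / Real.log y := by positivity
    nlinarith
  have e1 := abs_le.1 (hest y₁ le_rfl)
  have e2 := abs_le.1 (hest y₂ (by omega))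
  have hl1 := hz1 y₁ (by omega)
  have hl2 := hz2 y₂ (by omega)
  rw [pow_one] at hl2
  obtain ⟨Y, hY⟩ : ∃ Y : ℝ, Y = y₂ := ⟨_, rfl⟩
  obtain ⟨Y₁, hY₁⟩ : ∃ Y : ℝ, Y = y₁ := ⟨_, rfl⟩
  rw [← hY₁] at e1 hl1
  rw [← hY] at e2 hl2 hnp
  have hYY : 2 * Y₁ ≤ Y := by rw [hY, hY₁]; exact_mod_cast h2y
  have hY1 : 1 ≤ Y₁ := by rw [hY₁]; exact_mod_cast (by omega : 1 ≤ y₁)
  have hY256 : 256 * (q : ℝ) ≤ Y₁ := by
    rw [hY₁]
    have : 256 * q ≤ y₁ := by omega
    exact_mod_cast this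
  have hlog12 : Real.log Y₁ ≤ Real.log Y := Real.log_le_log (by linarith) (by linarith)
  have hcp : (0 : ℝ) < 32 * q * (C + 1) := by positivity
  have hlog1 : 32 * q * (C + 1) ≤ Real.log Y₁ := by linarith
  have hlp : 0 < Real.log Y₁ := by linarith
  have f1 : (C + 1) * (Y₁ / Real.log Y₁) ≤ Y / (32 * q) := by
    rw [← mul_div_assoc, div_le_div_iff₀ hlp (by positivity)]
    calc (C + 1) * Y₁ * (32 * q) = (32 * q * (C + 1)) * Y₁ := by ring
      _ ≤ Real.log Y₁ * Y := mul_le_mul hlog1 (by linarith) (by linarith) hlp.le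
      _ = Y * Real.log Y₁ := by ring
  have f2 : (C + 1) * (Y / Real.log Y) ≤ Y / (32 * q) := by
    rw [← mul_div_assoc, div_le_div_iff₀ (by linarith) (by positivity)]
    calc (C + 1) * Y * (32 * q) = (32 * q * (C + 1)) * Y := by ring
      _ ≤ Real.log Y * Y := mul_le_mul_of_nonneg_right (by linarith) (by linarith)
      _ = Y * Real.log Y := by ring
  have f3 : 2 * √Y * Real.log Y ≤ Y / (32 * q) := by
    rw [le_div_iff₀ (by positivity)]
    have hs : √Y * √Y = Y := Real.mul_self_sqrt (by linarith)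
    calc 2 * √Y * Real.log Y * (32 * q) = √Y * (64 * q * Real.log Y) := by ring
      _ ≤ √Y * √Y := mul_le_mul_of_nonneg_left hl2 (Real.sqrt_nonneg _)
      _ = Y := hs
  have f4 : (4 : ℝ) ≤ Y / (32 * q) := by
    rw [le_div_iff₀ (by positivity)]
    nlinarith
  have f5 : Y / (2 * q) ≤ Y / (Nat.totient q : ℝ) - Y₁ / (Nat.totient q : ℝ) := by
    rw [← sub_div, div_le_div_iff₀ (by positivity) hφ]
    calc Y * (Nat.totient q : ℝ) ≤ Y * q := mul_le_mul_of_nonneg_left hφq (by linarith)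
      _ ≤ (Y - Y₁) * (2 * q) := by nlinarith
  have f6 : Y / (2 * q) = 16 * (Y / (32 * q)) := by
    field_simp
    ring
  have f7 : 0 < Y / (32 * q) := by
    have : 0 < Y := by linarith
    positivity
  linarith [e1.2, e2.1]

end Pool.Agent.R482.KB
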