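import Mathlib
import Pool.Agent.R482.KB.Stm
import Pool.Agent.W851.Had.Schn

/-! The covering lemma (rising sun + Schnirelmann). -/

set_option autoImplicit false

namespace Pool.Agent.R482.KB
open Finset Pool.Agent.W851.Had

theorem rising_sun (S : Finset ℕ) (N X : ℕ) (δ : ℝ) (hX : 1 ≤ X) (hδ : 0 < δ) (hN : N = 2 * X)
    (hS : ∀ x ∈ S, x < N) (hc : δ * X ≤ S.card) :
    ∃ M : ℕ, M < N ∧ ∀ m : ℕ, 1 ≤ m → m ≤ 2 * X →
      δ / 5 * m ≤ ((S.filter (fun x => M ≤ x ∧ x < M + m)).card : ℝ) := by
  by_contra hcon
  push Not at hcon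
  have key : ∀ k M : ℕ, M + k = N →
      ((S.filter (fun x => M ≤ x)).card : ℝ) ≤ δ / 5 * (k + 2 * X) := by
    intro k
    induction k using Nat.strong_induction_on with
    | _ k ih =>
      intro M hM
      rcases Nat.eq_zero_or_pos k with hk | hk
      · have : S.filter (fun x => M ≤ x) = ∅ := by
          rw [Finset.filter_eq_empty_iff]
          intro x hx
          have := hS x hx
          omega
        rw [this, Finset.card_empty]
        push_cast
        positivity
      · obtain ⟨m, hm1, hm2, hm3⟩ := hcon M (by omega)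
        rcases le_or_gt k m with hkm | hkm
        · have h1 : S.filter (fun x => M ≤ x) ⊆ S.filter (fun x => M ≤ x ∧ x < M + m) := by
            intro x hx
            rw [Finset.mem_filter] at hx ⊢
            have := hS x hx.1
            exact ⟨hx.1, hx.2, by omega⟩
          have h2 : ((S.filter (fun x => M ≤ x)).card : ℝ) ≤
              ((S.filter (fun x => M ≤ x ∧ x < M + m)).card : ℝ) := by
            exact_mod_cast Finset.card_le_card h1
          have h3 : (m : ℝ) ≤ 2 * X := by exact_mod_cast hm2
          have h4 : δ / 5 * m ≤ δ / 5 * (k + 2 * X) := by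
            have : (0 : ℝ) ≤ k := Nat.cast_nonneg k
            gcongr
            linarith
          linarith
        · have h1 : S.filter (fun x => M ≤ x) ⊆ S.filter (fun x => M ≤ x ∧ x < M + m) ∪
              S.filter (fun x => M + m ≤ x) := by
            intro x hx
            rw [Finset.mem_filter] at hx
            rw [Finset.mem_union, Finset.mem_filter, Finset.mem_filter]
            rcases lt_or_ge x (M + m) with h | h
            · exact Or.inl ⟨hx.1, hx.2, h⟩
            · exact Or.inr ⟨hx.1, h⟩
          have h2 : ((S.filter (fun x => M ≤ x)).card : ℝ) ≤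
              ((S.filter (fun x => M ≤ x ∧ x < M + m)).card : ℝ) +
                ((S.filter (fun x => M + m ≤ x)).card : ℝ) := by
            exact_mod_cast (Finset.card_le_card h1).trans (Finset.card_union_le _ _)
          have h3 := ih (k - m) (by omega) (M + m) (by omega)
          have h4 : ((k - m : ℕ) : ℝ) = k - m := Nat.cast_sub hkm.le
          rw [h4] at h3
          linarith
  have h0 := key N 0 (by omega)
  have h1 : S.filter (fun x => 0 ≤ x) = S := Finset.filter_true_of_mem fun x _ => Nat.zero_le x
  rw [h1, hN] at h0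
  push_cast at h0
  have hX' : (1 : ℝ) ≤ X := by exact_mod_cast hX
  nlinarith

theorem covering : Covering := by
  intro S N X h δ hX hδ hδ1 hδh hN hS hc
  obtain ⟨M, hM, hM'⟩ := rising_sun S N X δ hX hδ hN hS hc
  refine ⟨M, hM, fun n hn => ?_⟩
  set B : ℕ → Prop := fun y => M + y ∈ S ∨ (1 ≤ y ∧ M + (y - 1) ∈ S) with hB
  have hMS : M ∈ S := by
    have h1 := hM' 1 le_rfl (by omega)
    have h2 : 0 < ((S.filter (fun x => M ≤ x ∧ x < M + 1)).card : ℝ) := by
      refine lt_of_lt_of_le ?_ h1
      push_cast
      positivity
    have h3 : 0 < (S.filter (fun x => M ≤ x ∧ x < M + 1)).card := by exact_mod_cast h2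
    obtain ⟨x, hx⟩ := Finset.card_pos.1 h3
    rw [Finset.mem_filter] at hx
    have : x = M := by omega
    rw [← this]; exact hx.1
  have hB0 : B 0 := Or.inl (by rwa [add_zero])
  have hcnt : ∀ k ≤ 2 * X, δ / 5 * (k : ℝ) ≤ cnt B k := by
    intro k hk
    rcases Nat.eq_zero_or_pos k with h0 | h0
    · subst h0; rw [cnt_zero]; simp
    · refine (hM' k h0 hk).trans ?_
      classical
      unfold cnt
      have h1 : (S.filter (fun x => M ≤ x ∧ x < M + k)).card =
          ((S.filter (fun x => M ≤ x ∧ x < M + k)).image (fun x => x - M + 1)).card := by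
        rw [Finset.card_image_of_injOn]
        intro x hx y hy hxy
        rw [Finset.mem_coe, Finset.mem_filter] at hx hy
        simp only at hxy
        omega
      rw [h1]
      have h2 : (S.filter (fun x => M ≤ x ∧ x < M + k)).image (fun x => x - M + 1) ⊆
          @Finset.filter ℕ B (fun a => Classical.propDecidable (B a)) (Icc 1 k) := by
        intro y hy
        obtain ⟨x, hx, rfl⟩ := Finset.mem_image.1 hy
        rw [Finset.mem_filter] at hx
        refine (@Finset.mem_filter ℕ B (fun a => Classical.propDecidable (B a)) _ _).2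
          ⟨Finset.mem_Icc.2 ⟨by omega, by omega⟩, Or.inr ⟨by omega, ?_⟩⟩
        have : M + (x - M + 1 - 1) = x := by omega
        rw [this]; exact hx.1
      exact_mod_cast Finset.card_le_card h2
  have hs := schn B (2 * X) h (δ / 5) (by linarith) (by linarith) hB0 hcnt n hn
  obtain ⟨l, hl1, hl2, hl3⟩ := hs
  exact ⟨l, by omega, hl2, hl3⟩

end Pool.Agent.R482.KB
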