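import Pool.Agent.R482.KB.Stm
import Pool.Agent.Erdos456.Mertens

/-! A lower bound for the totient. -/

set_option autoImplicit false

namespace Pool.Agent.R482.KB
open Finset

lemma ratio_prod (r : ℕ) (hr : r ≠ 0) : (r : ℝ) / (Nat.totient r : ℝ) = ∏ p ∈ r.primeFactors, ((p:ℝ) / (p - 1)) := by
  have h := Nat.totient_mul_prod_primeFactors r
  have h' : (Nat.totient r : ℝ) * ∏ p ∈ r.primeFactors, (p : ℝ) = r * ∏ p ∈ r.primeFactors, ((p : ℝ) - 1) := by
    have h2 : ((Nat.totient r * ∏ p ∈ r.primeFactors, p : ℕ) : ℝ) = ((r * ∏ p ∈ r.primeFactors, (p - 1) : ℕ) : ℝ) := by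
      exact_mod_cast h
    push_cast at h2
    rw [h2]
    congr 1
    apply Finset.prod_congr rfl
    intro p hp
    have := (Nat.prime_of_mem_primeFactors hp).one_le
    push_cast [Nat.cast_sub this]
    rfl
  have hφ : (Nat.totient r : ℝ) ≠ 0 := by
    have := Nat.totient_pos.mpr (Nat.pos_of_ne_zero hr); positivity
  have hp1 : ∏ p ∈ r.primeFactors, ((p : ℝ) - 1) ≠ 0 := by
    rw [Finset.prod_ne_zero_iff]
    intro p hp
    have := (Nat.prime_of_mem_primeFactors hp).two_le
    have : (2:ℝ) ≤ p := by exact_mod_cast this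
    linarith
  rw [Finset.prod_div_distrib, div_eq_div_iff hφ hp1]
  linarith

lemma card_le_log (q : ℕ) (hq : 1 ≤ q) : (q.primeFactors.card : ℝ) * Real.log 2 ≤ Real.log q := by
  have h1 : 2 ^ q.primeFactors.card ≤ q := by
    calc 2 ^ q.primeFactors.card ≤ ∏ p ∈ q.primeFactors, p := by
          rw [← prod_const]
          exact prod_le_prod' fun p hp => (Nat.prime_of_mem_primeFactors hp).two_le
      _ ≤ q := Nat.le_of_dvd hq (Nat.prod_primeFactors_dvd q)
  have h2 : (2 : ℝ) ^ q.primeFactors.card ≤ q := by exact_mod_cast h1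
  have h3 := Real.log_le_log (by positivity) h2
  rwa [Real.log_pow] at h3

/-- the ratio `q / φ(q)` -/
lemma ratio_le : ∃ C : ℝ, 0 < C ∧ ∀ q : ℕ, 1 ≤ q → ∀ K : ℕ, 3 ≤ K → q.primeFactors.card ≤ K →
    (q : ℝ) / (Nat.totient q : ℝ) ≤ C * Real.log K ^ 2 := by
  classical
  obtain ⟨C₀, hC₀⟩ := Pool.Agent.Erdos456.Mert.mertens_inv
  refine ⟨Real.exp (2 * (C₀ + 1)), Real.exp_pos _, fun q hq K hK hcard => ?_⟩
  have hK0 : (0 : ℝ) < K := by exact_mod_cast (by omega : 0 < K)
  have hlogK : 0 < Real.log K := Real.log_pos (by exact_mod_cast (by omega : 1 < K))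
  have h1 : ∑ p ∈ q.primeFactors, (1 : ℝ) / p ≤ Real.log (Real.log K) + C₀ + 1 := by
    rw [← sum_filter_add_sum_filter_not q.primeFactors (fun p => p ≤ K)]
    have e1 : ∑ p ∈ q.primeFactors.filter (fun p => p ≤ K), (1 : ℝ) / p ≤ ∑ p ∈ (Icc 1 K).filter Nat.Prime, (1 : ℝ) / p := by
      apply sum_le_sum_of_subset_of_nonneg
      · intro p hp
        rw [mem_filter] at hp
        have := Nat.prime_of_mem_primeFactors hp.1
        rw [mem_filter, mem_Icc]
        exact ⟨⟨this.one_le, hp.2⟩, this⟩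
      · intro p _ _
        positivity
    have e2 := (abs_le.1 (hC₀ K hK)).2
    have e3 : ∑ p ∈ q.primeFactors.filter (fun p => ¬ p ≤ K), (1 : ℝ) / p ≤ 1 := by
      calc ∑ p ∈ q.primeFactors.filter (fun p => ¬ p ≤ K), (1 : ℝ) / p
          ≤ ∑ _p ∈ q.primeFactors.filter (fun p => ¬ p ≤ K), (1 : ℝ) / K := by
            apply sum_le_sum
            intro p hp
            rw [mem_filter] at hp
            apply one_div_le_one_div_of_le hK0
            have : K ≤ p := by omega
            exact_mod_cast this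
        _ = ((q.primeFactors.filter (fun p => ¬ p ≤ K)).card : ℝ) * (1 / K) := by rw [sum_const, nsmul_eq_mul]
        _ ≤ K * (1 / K) := by
            apply mul_le_mul_of_nonneg_right _ (by positivity)
            exact_mod_cast (card_filter_le _ _).trans hcard
        _ = 1 := by field_simp
    linarith
  rw [ratio_prod q (by omega)]
  calc ∏ p ∈ q.primeFactors, ((p:ℝ) / (p - 1)) ≤ ∏ p ∈ q.primeFactors, Real.exp (2 * ((1 : ℝ) / p)) := by
        apply prod_le_prod
        · intro p hp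
          have : (2 : ℝ) ≤ p := by exact_mod_cast (Nat.prime_of_mem_primeFactors hp).two_le
          exact div_nonneg (by linarith) (by linarith)
        · intro p hp
          have hp2 : (2 : ℝ) ≤ p := by exact_mod_cast (Nat.prime_of_mem_primeFactors hp).two_le
          have e1 := Real.add_one_le_exp (2 * ((1 : ℝ) / p))
          refine le_trans ?_ e1
          rw [div_le_iff₀ (by linarith)]
          have e2 : (1 : ℝ) / p * p = 1 := by field_simp
          have e3 : (1 : ℝ) / p ≤ 1 / 2 := one_div_le_one_div_of_le (by norm_num) hp2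
          nlinarith
    _ = Real.exp (2 * ∑ p ∈ q.primeFactors, (1 : ℝ) / p) := by rw [← Real.exp_sum, ← mul_sum]
    _ ≤ Real.exp (2 * (Real.log (Real.log K) + C₀ + 1)) := Real.exp_le_exp.2 (by linarith)
    _ = Real.exp (2 * (C₀ + 1)) * Real.log K ^ 2 := by
        rw [show 2 * (Real.log (Real.log K) + C₀ + 1) = 2 * (C₀ + 1) + ((2 : ℕ) : ℝ) * Real.log (Real.log K) by push_cast; ring, Real.exp_add,
          Real.exp_nat_mul, Real.exp_log hlogK]

/-- S4 -/
theorem totientBound : TotientBound := by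
  obtain ⟨C, hC, h⟩ := ratio_le
  refine ⟨C ^ 4 * (40320 * 9), by positivity, fun b hb => ?_⟩
  obtain ⟨q, hq⟩ : ∃ q, q = b * (b ^ 2 - 1) := ⟨_, rfl⟩
  rw [← hq]
  have hb2 : 4 ≤ b ^ 2 := by nlinarith
  have hq1 : 1 ≤ q := by
    rw [hq]
    exact Nat.mul_pos (by omega) (by omega)
  have hqb : q ≤ b ^ 3 := by
    rw [hq, pow_succ' b 2]
    exact Nat.mul_le_mul_left _ (Nat.sub_le _ _)
  have hbr : (2 : ℝ) ≤ b := by exact_mod_cast hb
  have hlogb : Real.log 2 ≤ Real.log b := Real.log_le_log (by norm_num) hbr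
  have hl2a := Real.log_two_gt_d9
  have hl2b := Real.log_two_lt_d9
  obtain ⟨K, hK⟩ : ∃ K, K = max 3 q.primeFactors.card := ⟨_, rfl⟩
  have hK3 : 3 ≤ K := by rw [hK]; exact le_max_left _ _
  have h1 := h q hq1 K hK3 (by rw [hK]; exact le_max_right _ _)
  have hK9 : (K : ℝ) ≤ 9 * Real.log b := by
    have e1 := card_le_log q hq1
    have e2 : Real.log q ≤ 3 * Real.log b := by
      have : (q : ℝ) ≤ (b : ℝ) ^ 3 := by exact_mod_cast hqb
      have h3 := Real.log_le_log (by exact_mod_cast (by omega : 0 < q)) this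
      rw [Real.log_pow] at h3
      exact_mod_cast h3
    have e3 : (q.primeFactors.card : ℝ) ≤ 9 * Real.log b := by
      have : (0 : ℝ) ≤ q.primeFactors.card := Nat.cast_nonneg _
      nlinarith
    rw [hK]
    push_cast
    exact max_le (by linarith) e3
  have hK0 : (0 : ℝ) < K := by exact_mod_cast (by omega : 0 < K)
  have hlogK : 0 ≤ Real.log K := Real.log_nonneg (by exact_mod_cast (by omega : 1 ≤ K))
  have h2 : Real.log K ^ 8 ≤ 40320 * K := by
    have e1 := Real.pow_div_factorial_le_exp _ hlogK 8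
    rw [Real.exp_log hK0, div_le_iff₀ (by positivity)] at e1
    have e2 : ((Nat.factorial 8 : ℕ) : ℝ) = 40320 := by norm_num [Nat.factorial]
    rw [e2] at e1
    linarith
  have h0 : 0 ≤ (q : ℝ) / (Nat.totient q : ℝ) := by positivity
  calc ((q : ℝ) / (Nat.totient q : ℝ)) ^ 4 ≤ (C * Real.log K ^ 2) ^ 4 := pow_le_pow_left₀ h0 h1 4
    _ = C ^ 4 * Real.log K ^ 8 := by ring
    _ ≤ C ^ 4 * (40320 * K) := mul_le_mul_of_nonneg_left h2 (by positivity)
    _ ≤ C ^ 4 * (40320 * (9 * Real.log b)) := by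
        apply mul_le_mul_of_nonneg_left _ (by positivity)
        apply mul_le_mul_of_nonneg_left hK9 (by norm_num)
    _ = C ^ 4 * (40320 * 9) * Real.log b := by ring

end Pool.Agent.R482.KB
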